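import Pool.Agent.H76.SA.Chain

open Matrix Filter Topology
open scoped MatrixGroups

set_option linter.unusedSimpArgs false

namespace Pool.Agent.SimpleAnosov

variable {Γ : Subgroup G}

/-- The dot product of the rows; `F (g)` is `Re z / Im z` for `z = g i`, i.e. the hyperbolic sine
of the signed distance from `g i` to the imaginary axis. -/
def F (g : G) : ℝ := g 0 0 * g 1 0 + g 0 1 * g 1 1

lemma F_neg (g : G) : F (-g) = F g := by
  unfold F; rw [neg_00, neg_01, neg_10, neg_11]; ring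

lemma F_geo_mul (t : ℝ) (g : G) : F (geo t * g) = F g := by
  have h : Real.exp (t / 2) * Real.exp (-(t / 2)) = 1 := by rw [← Real.exp_add]; simp
  unfold F
  rw [mul_00, mul_10, mul_01, mul_11]
  simp only [geo_00, geo_01, geo_10, geo_11, zero_mul, zero_add, add_zero]
  linear_combination (g 0 0 * g 1 0 + g 0 1 * g 1 1) * h

lemma F_nz (x y : ℝ) (hy : 0 < y) : F (nz x y hy) = x / y := by
  have hs : √y ≠ 0 := (Real.sqrt_pos.mpr hy).ne'
  have hsq : √y * √y = y := Real.mul_self_sqrt hy.le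
  rw [F, nz, mk_00, mk_01, mk_10, mk_11, mul_zero, zero_add, ← hsq]
  have : √(√y * √y) = √y := by rw [hsq]
  rw [this]
  field_simp

/-- The coordinates of `M i`. -/
lemma row_pos (M : G) : 0 < M 1 0 ^ 2 + M 1 1 ^ 2 := by
  have h := G_det M
  by_contra hcon
  push Not at hcon
  have h1 : M 1 0 = 0 := by nlinarith [sq_nonneg (M 1 0), sq_nonneg (M 1 1)]
  have h2 : M 1 1 = 0 := by nlinarith [sq_nonneg (M 1 0), sq_nonneg (M 1 1)]
  rw [h1, h2] at h
  norm_num at h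

lemma ycoord_pos (M : G) : 0 < 1 / (M 1 0 ^ 2 + M 1 1 ^ 2) := one_div_pos.mpr (row_pos M)

lemma inv_mul_nz_bdd (M : G) : ∀ i j,
    |(M⁻¹ * nz (F M * (1 / (M 1 0 ^ 2 + M 1 1 ^ 2))) (1 / (M 1 0 ^ 2 + M 1 1 ^ 2))
      (ycoord_pos M)) i j| ≤ 1 := by
  have hr := row_pos M
  set q := M 1 0 ^ 2 + M 1 1 ^ 2 with hq
  set r := √q with hrdef
  have hr0 : 0 < r := Real.sqrt_pos.mpr hr
  have hrsq : r ^ 2 = q := Real.sq_sqrt hr.le
  have hs : √(1 / q) = 1 / r := by rw [Real.sqrt_div zero_le_one, Real.sqrt_one]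
  have hdet := G_det M
  have e00 : (M⁻¹ * nz (F M * (1 / q)) (1 / q) (ycoord_pos M)) 0 0 = M 1 1 / r := by
    rw [mul_00, inv_00, inv_01, nz, mk_00, mk_10, hs]; ring
  have e10 : (M⁻¹ * nz (F M * (1 / q)) (1 / q) (ycoord_pos M)) 1 0 = -(M 1 0 / r) := by
    rw [mul_10, inv_10, inv_11, nz, mk_00, mk_10, hs]; ring
  have e01 : (M⁻¹ * nz (F M * (1 / q)) (1 / q) (ycoord_pos M)) 0 1 = M 1 0 / r := by
    rw [mul_01, inv_00, inv_01, nz, mk_01, mk_11, hs, F, ← hrsq]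
    field_simp
    rw [hrsq, hq]
    linear_combination M 1 0 * hdet
  have e11 : (M⁻¹ * nz (F M * (1 / q)) (1 / q) (ycoord_pos M)) 1 1 = M 1 1 / r := by
    rw [mul_11, inv_10, inv_11, nz, mk_01, mk_11, hs, F, ← hrsq]
    field_simp
    rw [hrsq, hq]
    linear_combination M 1 1 * hdet
  have b0 : |M 1 0 / r| ≤ 1 := by
    rw [abs_div, abs_of_pos hr0, div_le_one hr0]
    apply Real.abs_le_sqrt
    rw [hq]; nlinarith [sq_nonneg (M 1 1)]
  have b1 : |M 1 1 / r| ≤ 1 := by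
    rw [abs_div, abs_of_pos hr0, div_le_one hr0]
    apply Real.abs_le_sqrt
    rw [hq]; nlinarith [sq_nonneg (M 1 0)]
  apply bdd_of_entries
  · rw [e00]; exact b1
  · rw [e01]; exact b0
  · rw [e10, abs_neg]; exact b0
  · rw [e11]; exact b1

/-- A closed surface group is finitely generated. -/
theorem IsSurfaceGroup.fg_aux (hΓ : IsSurfaceGroup Γ) :
    ∃ E : Set G, E.Finite ∧ Subgroup.closure E = Γ := by
  obtain ⟨E, D, hE, hEΓ, hD, hchain⟩ := hΓ.exists_chain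
  refine ⟨E, hE, le_antisymm ((Subgroup.closure_le Γ).mpr hEΓ) ?_⟩
  intro γ hγ
  have h1 : ∀ i j, |((1 : G)⁻¹ * 1 * nz 0 1 one_pos) i j| ≤ D := by
    rw [inv_one, one_mul, one_mul]
    apply bdd_of_entries
    · rw [nz, mk_00]; simpa using hD
    · rw [nz, mk_01]; simp; linarith
    · rw [nz, mk_10]; simp; linarith
    · rw [nz, mk_11]; simpa using hD
  obtain ⟨n, p, hp0, hpn, hstep, -⟩ := hchain 1 0 1 _ _ one_pos (ycoord_pos γ) 1 γ Γ.one_mem hγ h1
    (fun i j => by rw [mul_one]; exact (inv_mul_nz_bdd γ i j).trans hD)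
  have hall : ∀ i ≤ n, p i ∈ Subgroup.closure E := by
    intro i
    induction i with
    | zero => intro _; rw [hp0]; exact Subgroup.one_mem _
    | succ i ih =>
      intro hi
      have h2 := ih (by omega)
      have h3 := hstep i (by omega)
      have : p (i + 1) = p i * ((p i)⁻¹ * p (i + 1)) := by group
      rw [this]
      exact Subgroup.mul_mem _ h2 (Subgroup.subset_closure h3)
  rw [← hpn]
  exact hall n le_rfl

/-- A closed surface group is finitely generated. -/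
theorem IsSurfaceGroup.fg (hΓ : IsSurfaceGroup Γ) :
    ∃ S : Finset Γ, Subgroup.closure (S : Set Γ) = ⊤ := by
  classical
  obtain ⟨E, hE, hcl⟩ := hΓ.fg_aux
  have hfg : Γ.FG := ⟨hE.toFinset, by rw [hE.coe_toFinset]; exact hcl⟩
  have h2 : Group.FG Γ := (Group.fg_iff_subgroup_fg Γ).mpr hfg
  exact h2.out

theorem IsSurfaceGroup.finite_classes (hΓ : IsSurfaceGroup Γ) (M : ℝ) :
    ∃ Y : Set Γ, Y.Finite ∧ ∀ γ : Γ, |((γ : SL(2, ℝ)) : Matrix (Fin 2) (Fin 2) ℝ).trace| ≤ M →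
      ∃ y ∈ Y, ∃ δ : Γ, γ = δ * y * δ⁻¹ := by
  obtain ⟨F, hF, hFΓ, hcov⟩ := hΓ.finite_conj M
  refine ⟨{y : Γ | (y : G) ∈ F}, hF.preimage Subtype.val_injective.injOn, ?_⟩
  intro γ hγ
  rw [← tr_eq] at hγ
  obtain ⟨δ, hδ, f, hf, hg⟩ := hcov γ γ.2 hγ
  exact ⟨⟨f, hFΓ hf⟩, hf, ⟨δ, hδ⟩, Subtype.ext hg⟩

end Pool.Agent.SimpleAnosov
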