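import Pool.Agent.H76.SA.SimpleMap

open Matrix Filter Topology
open scoped MatrixGroups

set_option linter.unusedSimpArgs false

namespace Pool.Agent.SimpleAnosov

variable {Γ : Subgroup G}

lemma F_bdd {M : G} {K : ℝ} (h : ∀ i j, |M i j| ≤ K) : |F M| ≤ 2 * K ^ 2 := by
  have hK : 0 ≤ K := (abs_nonneg _).trans (h 0 0)
  unfold F
  calc |M 0 0 * M 1 0 + M 0 1 * M 1 1| ≤ |M 0 0 * M 1 0| + |M 0 1 * M 1 1| := abs_add_le _ _
    _ ≤ K * K + K * K := by
        rw [abs_mul, abs_mul]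
        exact add_le_add (mul_le_mul (h 0 0) (h 1 0) (abs_nonneg _) hK)
          (mul_le_mul (h 0 1) (h 1 1) (abs_nonneg _) hK)
    _ = 2 * K ^ 2 := by ring

/-- Elements whose axes are unlinked do not cross coarsely. -/
theorem IsSurfaceGroup.not_cr_of_unlinked (hΓ : IsSurfaceGroup Γ) {γ δ : Γ} {X : G} {l : ℝ}
    (hl : 0 < l) (hax : (γ : G) * X = X * geo l ∨ (γ : G) * X = -(X * geo l))
    (hpos : 0 < Pi4 (X⁻¹ * δ * X)) : ¬ Cr γ (δ * γ * δ⁻¹) := by
  intro hCr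
  obtain ⟨E, D, hE, hEΓ, hD, hchain⟩ := hΓ.exists_chain
  obtain ⟨B, hB, N, hN⟩ := hCr ((Subtype.val : Γ → G) ⁻¹' E)
    (hE.preimage Subtype.val_injective.injOn)
  obtain ⟨XB, hXB, hXb⟩ := exists_entry_bound X
  obtain ⟨Bb, hBb, hBbb⟩ := finite_entry_bound (hB.image (Subtype.val : Γ → G))
  set K : ℝ := 2 * (2 * XB * Bb) * D with hK
  obtain ⟨N', hN'⟩ := F_growth hl hax (δ : G) (2 * K ^ 2)
  set n := max N N' with hn
  apply hN n (le_max_left _ _)
  obtain ⟨g1, g2, g3, g4⟩ := hN' n (le_max_right _ _)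
  set M₁ : G := X⁻¹ * ((δ : G) * γ * (δ : G)⁻¹) ^ n with hM₁
  set M₂ : G := X⁻¹ * (((δ : G) * γ * (δ : G)⁻¹)⁻¹) ^ n with hM₂
  set η₁ : G := ((δ : G) * γ * (δ : G)⁻¹) ^ n with hη₁
  set η₂ : G := (((δ : G) * γ * (δ : G)⁻¹)⁻¹) ^ n with hη₂
  have hη₁Γ : η₁ ∈ Γ := ((δ * γ * δ⁻¹) ^ n : Γ).2
  have hη₂Γ : η₂ ∈ Γ := (((δ * γ * δ⁻¹)⁻¹) ^ n : Γ).2
  obtain ⟨m, p, hp0, hpm, hstep, hall⟩ := hchain X _ _ _ _ (ycoord_pos M₁) (ycoord_pos M₂) η₁ η₂
    hη₁Γ hη₂Γ
    (fun i j => by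
      have e : η₁⁻¹ * X = M₁⁻¹ := by rw [hM₁]; group
      rw [e]; exact (inv_mul_nz_bdd M₁ i j).trans hD)
    (fun i j => by
      have e : η₂⁻¹ * X = M₂⁻¹ := by rw [hM₂]; group
      rw [e]; exact (inv_mul_nz_bdd M₂ i j).trans hD)
  -- the sign
  have hsign : (2 * K ^ 2 < F M₁ ∧ 2 * K ^ 2 < F M₂) ∨ (F M₁ < -(2 * K ^ 2) ∧ F M₂ < -(2 * K ^ 2)) := by
    unfold Pi4 at hpos
    rcases mul_pos_iff.mp hpos with ⟨h1, h2⟩ | ⟨h1, h2⟩
    · left; exact ⟨g1 h1, g3 h2⟩
    · right; exact ⟨g2 h1, g4 h2⟩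
  let q : ℕ → Γ := fun i => if h : i ≤ m then ⟨p i, (hall i h).1⟩ else 1
  have hq : ∀ i (h : i ≤ m), q i = ⟨p i, (hall i h).1⟩ := fun i h => by
    simp only [q]; rw [dif_pos h]
  refine ⟨m, q, ?_, ?_, ?_, ?_⟩
  · rw [hq 0 (Nat.zero_le _)]
    apply Subtype.ext
    simp only [hp0, hη₁]
    push_cast
    rfl
  · rw [hq m le_rfl]
    apply Subtype.ext
    simp only [hpm, hη₂]
    push_cast
    rfl
  · intro i hi
    rw [hq i hi.le, hq (i + 1) hi]
    exact hstep i hi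
  · intro i hi
    rw [hq i hi]
    rintro ⟨k, b, hb, hkb⟩
    obtain ⟨hpΓ, τ, hτ0, hτ1, hy, hbd⟩ := hall i hi
    set y1 := 1 / (M₁ 1 0 ^ 2 + M₁ 1 1 ^ 2) with hy1
    set y2 := 1 / (M₂ 1 0 ^ 2 + M₂ 1 1 ^ 2) with hy2
    have hy1pos : 0 < y1 := ycoord_pos M₁
    have hy2pos : 0 < y2 := ycoord_pos M₂
    set z : G := nz ((1 - τ) * (F M₁ * y1) + τ * (F M₂ * y2)) ((1 - τ) * y1 + τ * y2) hy with hz
    set u : G := (p i)⁻¹ * X * z with hu
    have hpi : p i = (γ : G) ^ k * (b : G) := by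
      have := congrArg (Subtype.val : Γ → G) hkb
      simpa using this
    have hzu : z = X⁻¹ * (γ : G) ^ k * (b * u) := by
      rw [hu, hpi]; group
    have hFz : F z = F (X⁻¹ * b * u) := by
      have e1 : X⁻¹ * (γ : G) ^ k = geo (k * l) * X⁻¹ ∨ X⁻¹ * (γ : G) ^ k = -(geo (k * l) * X⁻¹) := by
        rcases axis_zpow hax k with h | h
        · left
          have : (γ : G) ^ k = X * geo (k * l) * X⁻¹ := by rw [← h]; group
          rw [this]; group
        · right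
          have : (γ : G) ^ k = -(X * geo (k * l)) * X⁻¹ := by rw [← h]; group
          rw [this, neg_mul, mul_neg]; group
      rcases e1 with e1 | e1
      · rw [hzu, e1, mul_assoc, F_geo_mul]; congr 1; group
      · rw [hzu, e1, neg_mul, F_neg, mul_assoc, F_geo_mul]; congr 1; group
    have hbound : |F (X⁻¹ * b * u)| ≤ 2 * K ^ 2 := by
      apply F_bdd
      exact mul_bdd (by positivity) (mul_bdd hXB.le (inv_bdd hXb) (hBbb _ ⟨b, hb, rfl⟩)) hbd
    rw [← hFz, hz, F_nz, abs_le] at hbound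
    obtain ⟨hb1, hb2⟩ := hbound
    rw [le_div_iff₀ hy] at hb1
    rw [div_le_iff₀ hy] at hb2
    rcases hsign with ⟨s1, s2⟩ | ⟨s1, s2⟩
    · have t1 : 2 * K ^ 2 * y1 < F M₁ * y1 := by nlinarith
      have t2 : 2 * K ^ 2 * y2 < F M₂ * y2 := by nlinarith
      rcases eq_or_lt_of_le hτ0 with h0 | h0
      · rw [← h0] at hb2
        linarith
      · have t3 : τ * (2 * K ^ 2 * y2) < τ * (F M₂ * y2) := by gcongr
        have t4 : (1 - τ) * (2 * K ^ 2 * y1) ≤ (1 - τ) * (F M₁ * y1) := by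
          have : 0 ≤ 1 - τ := by linarith
          gcongr
        linarith
    · have t1 : F M₁ * y1 < -(2 * K ^ 2 * y1) := by nlinarith
      have t2 : F M₂ * y2 < -(2 * K ^ 2 * y2) := by nlinarith
      rcases eq_or_lt_of_le hτ0 with h0 | h0
      · rw [← h0] at hb1
        linarith
      · have t3 : τ * (F M₂ * y2) < τ * (-(2 * K ^ 2 * y2)) := by gcongr
        have t4 : (1 - τ) * (F M₁ * y1) ≤ (1 - τ) * (-(2 * K ^ 2 * y1)) := by
          have : 0 ≤ 1 - τ := by linarith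
          gcongr
        linarith

/-- The commutator of the two hyperbolic elements. -/
lemma tr_commutator {γ X δ : G} {l : ℝ}
    (hax : γ * X = X * geo l ∨ γ * X = -(X * geo l)) :
    tr (γ * (δ * γ * δ⁻¹) * γ⁻¹ * (δ * γ * δ⁻¹)⁻¹) = 2 + (Real.exp l + Real.exp (-l) - 2) *
      Pi4 (X⁻¹ * δ * X) * (Real.exp (l / 2) - Real.exp (-(l / 2))) ^ 2 := by
  set h := X⁻¹ * δ * X with hh
  set T := h * geo l * h⁻¹ with hT
  have e1 : γ * (δ * γ * δ⁻¹) * γ⁻¹ * (δ * γ * δ⁻¹)⁻¹ =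
      X * (geo l * T * (geo l)⁻¹ * T⁻¹) * X⁻¹ := by
    rcases eq_conj_of_axis hax with h1 | h1
    · rw [h1, hT, hh]; group
    · have hn : ∀ Y : G, (-Y)⁻¹ = - Y⁻¹ := fun Y => by
        rw [inv_eq_iff_mul_eq_one]; simp
      rw [h1, hT, hh]
      simp only [mul_neg, neg_mul, hn, neg_neg]
      group
  rw [e1, tr_conj]
  have hdetT := G_det T
  have hdeth := G_det h
  have hexp : Real.exp (l / 2) * Real.exp (-(l / 2)) = 1 := by rw [← Real.exp_add]; simp
  have hl1 : Real.exp l = Real.exp (l / 2) ^ 2 := by rw [sq, ← Real.exp_add]; congr 1; ring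
  have hl2 : Real.exp (-l) = Real.exp (-(l / 2)) ^ 2 := by
    rw [sq, ← Real.exp_add]; congr 1; ring
  have t01 : T 0 1 = -(h 0 0 * h 0 1) * (Real.exp (l / 2) - Real.exp (-(l / 2))) := by
    rw [hT]
    simp only [mul_01, mul_00, mul_10, mul_11, inv_01, inv_11, geo_00, geo_01, geo_10, geo_11]
    ring
  have t10 : T 1 0 = (h 1 0 * h 1 1) * (Real.exp (l / 2) - Real.exp (-(l / 2))) := by
    rw [hT]
    simp only [mul_01, mul_00, mul_10, mul_11, inv_00, inv_10, geo_00, geo_01, geo_10, geo_11]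
    ring
  have t : tr (geo l * T * (geo l)⁻¹ * T⁻¹) =
      2 * (T 0 0 * T 1 1) - (Real.exp l + Real.exp (-l)) * (T 0 1 * T 1 0) := by
    rw [← geo_neg, tr]
    simp only [mul_01, mul_00, mul_10, mul_11, inv_00, inv_10, inv_01, inv_11, geo_00, geo_01,
      geo_10, geo_11]
    have e2 : Real.exp (-l / 2) = Real.exp (-(l / 2)) := by congr 1; ring
    have e3 : Real.exp (-(-l / 2)) = Real.exp (l / 2) := by congr 1; ring
    rw [e2, e3, hl1, hl2]
    linear_combination (2 * T 0 0 * T 1 1) * hexp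
  rw [t]
  have : T 0 0 * T 1 1 = 1 + T 0 1 * T 1 0 := by linarith
  rw [this, t01, t10, Pi4]
  ring

lemma geo_ne {l : ℝ} (hl : 0 < l) : 0 < Real.exp (l / 2) - Real.exp (-(l / 2)) := by
  have : Real.exp (-(l / 2)) < Real.exp (l / 2) := Real.exp_lt_exp.mpr (by linarith)
  linarith

lemma exp_add_exp_neg {l : ℝ} (hl : 0 < l) : 0 < Real.exp l + Real.exp (-l) - 2 := by
  have h1 : 1 < Real.exp l := Real.one_lt_exp_iff.mpr hl
  have h2 : Real.exp l * Real.exp (-l) = 1 := by rw [← Real.exp_add]; simp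
  have h3 : 0 < Real.exp (-l) := Real.exp_pos _
  nlinarith [sq_nonneg (Real.exp l - 1)]

/-- Two conjugate elements commute iff their axes share an end. -/
theorem IsSurfaceGroup.commute_iff (hΓ : IsSurfaceGroup Γ) {γ δ : Γ} {X : G} {l : ℝ}
    (hl : 0 < l) (hax : (γ : G) * X = X * geo l ∨ (γ : G) * X = -(X * geo l)) :
    Commute γ (δ * γ * δ⁻¹) ↔ Pi4 (X⁻¹ * δ * X) = 0 := by
  have key := tr_commutator (δ := (δ : G)) hax
  have h1 := geo_ne hl
  have h2 := exp_add_exp_neg hl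
  constructor
  · intro hc
    have e1 : (γ : G) * ((δ : G) * γ * (δ : G)⁻¹) * (γ : G)⁻¹ * ((δ : G) * γ * (δ : G)⁻¹)⁻¹ = 1 := by
      have e2 : γ * (δ * γ * δ⁻¹) = (δ * γ * δ⁻¹) * γ := hc
      have e3 := congrArg (Subtype.val : Γ → G) e2
      push_cast at e3
      rw [e3]; group
    rw [e1, tr_one] at key
    have h3 : (Real.exp l + Real.exp (-l) - 2) * Pi4 (X⁻¹ * δ * X) *
      (Real.exp (l / 2) - Real.exp (-(l / 2))) ^ 2 = 0 := by linarith
    rcases mul_eq_zero.mp h3 with h4 | h4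
    · rcases mul_eq_zero.mp h4 with h5 | h5
      · linarith
      · exact h5
    · have := pow_pos h1 2
      linarith
  · intro h0
    rw [h0, mul_zero, zero_mul, add_zero] at key
    by_contra hne
    have hmem : (γ : G) * ((δ : G) * γ * (δ : G)⁻¹) * (γ : G)⁻¹ * ((δ : G) * γ * (δ : G)⁻¹)⁻¹ ∈ Γ :=
      (γ * (δ * γ * δ⁻¹) * γ⁻¹ * (δ * γ * δ⁻¹)⁻¹ : Γ).2
    have hone : (γ : G) * ((δ : G) * γ * (δ : G)⁻¹) * (γ : G)⁻¹ * ((δ : G) * γ * (δ : G)⁻¹)⁻¹ ≠ 1 := by
      intro h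
      apply hne
      have h6 : γ * (δ * γ * δ⁻¹) * γ⁻¹ * (δ * γ * δ⁻¹)⁻¹ = 1 := by
        apply Subtype.ext
        push_cast
        exact h
      rw [mul_inv_eq_one, mul_inv_eq_iff_eq_mul] at h6
      exact h6
    have := hΓ.two_lt hmem hone
    rw [key] at this
    norm_num at this

/-- Description of the intersection of two lines. -/
lemma rot_iff (h : G) (s t : ℝ) : IsRot ((geo t)⁻¹ * h * geo s) ↔
    h 0 0 * Real.exp ((s - t) / 2) = h 1 1 * Real.exp (-((s - t) / 2)) ∧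
    h 0 1 * Real.exp (-((s + t) / 2)) = -(h 1 0 * Real.exp ((s + t) / 2)) := by
  unfold IsRot
  rw [← geo_neg]
  simp only [mul_01, mul_00, mul_10, mul_11, geo_00, geo_01, geo_10, geo_11, mul_zero, zero_mul,
    add_zero, zero_add]
  have e1 : Real.exp ((s - t) / 2) = Real.exp (-t / 2) * Real.exp (s / 2) := by
    rw [← Real.exp_add]; congr 1; ring
  have e2 : Real.exp (-((s - t) / 2)) = Real.exp (-(-t / 2)) * Real.exp (-(s / 2)) := by
    rw [← Real.exp_add]; congr 1; ring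
  have e3 : Real.exp (-((s + t) / 2)) = Real.exp (-t / 2) * Real.exp (-(s / 2)) := by
    rw [← Real.exp_add]; congr 1; ring
  have e4 : Real.exp ((s + t) / 2) = Real.exp (-(-t / 2)) * Real.exp (s / 2) := by
    rw [← Real.exp_add]; congr 1; ring
  rw [e1, e2, e3, e4]
  constructor
  · rintro ⟨h1, h2⟩
    exact ⟨by linarith, by linarith⟩
  · rintro ⟨h1, h2⟩
    exact ⟨by linarith, by linarith⟩

lemma mem_line_iff (X δ : G) (s t : ℝ) : (δ * X * geo s) • UpperHalfPlane.I =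
    (X * geo t) • UpperHalfPlane.I ↔ IsRot ((geo t)⁻¹ * (X⁻¹ * δ * X) * geo s) := by
  rw [smul_I_eq_iff]
  have : (X * geo t)⁻¹ * (δ * X * geo s) = (geo t)⁻¹ * (X⁻¹ * δ * X) * geo s := by group
  rw [this]

lemma cross_of_meet (hΓ : IsSurfaceGroup Γ) {X δ : G} (hδ : δ ∈ Γ)
    (hne : line (δ * X) ≠ line X) (hnd : ¬ Disjoint (line (δ * X)) (line X)) :
    Pi4 (X⁻¹ * δ * X) < 0 := by
  rw [Set.not_disjoint_iff] at hnd
  obtain ⟨z, ⟨s, hs⟩, ⟨t, ht⟩⟩ := hnd
  simp only at hs ht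
  have heq : (δ * X * geo s) • UpperHalfPlane.I = (X * geo t) • UpperHalfPlane.I := by
    rw [hs, ht]
  rw [mem_line_iff] at heq
  set h := X⁻¹ * δ * X with hh
  set k := (geo t)⁻¹ * h * geo s with hk
  have hk2 := heq.2
  have hk1 := heq.1
  have hksq := heq.sq
  have hhk : h = geo t * k * geo (-s) := by rw [geo_neg, hk]; group
  have e00 : h 0 0 = Real.exp (t / 2) * k 0 0 * Real.exp (-s / 2) := by
    rw [hhk]; simp only [mul_00, mul_01, geo_00, geo_01, geo_10, geo_11]; ring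
  have e01 : h 0 1 = Real.exp (t / 2) * k 0 1 * Real.exp (-(-s / 2)) := by
    rw [hhk]; simp only [mul_00, mul_01, geo_00, geo_01, geo_10, geo_11]; ring
  have e10 : h 1 0 = Real.exp (-(t / 2)) * k 1 0 * Real.exp (-s / 2) := by
    rw [hhk]; simp only [mul_10, mul_11, geo_00, geo_01, geo_10, geo_11]; ring
  have e11 : h 1 1 = Real.exp (-(t / 2)) * k 1 1 * Real.exp (-(-s / 2)) := by
    rw [hhk]; simp only [mul_10, mul_11, geo_00, geo_01, geo_10, geo_11]; ring
  have x1 : Real.exp (t / 2) * Real.exp (-(t / 2)) = 1 := by rw [← Real.exp_add]; simp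
  have x2 : Real.exp (-s / 2) * Real.exp (-(-s / 2)) = 1 := by rw [← Real.exp_add]; simp
  have hPi : Pi4 h = -(k 0 0 ^ 2 * k 0 1 ^ 2) := by
    unfold Pi4
    rw [e00, e01, e10, e11]
    have hk10 : k 1 0 = -(k 0 1) := by rw [hk2, neg_neg]
    rw [← hk1, hk10]
    have : Real.exp (t / 2) * k 0 0 * Real.exp (-s / 2) * (Real.exp (-(t / 2)) * -k 0 1 *
      Real.exp (-s / 2)) * (Real.exp (t / 2) * k 0 1 * Real.exp (-(-s / 2)) *
      (Real.exp (-(t / 2)) * k 0 0 * Real.exp (-(-s / 2)))) =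
      -(k 0 0 ^ 2 * k 0 1 ^ 2) * (Real.exp (t / 2) * Real.exp (-(t / 2))) ^ 2 *
      (Real.exp (-s / 2) * Real.exp (-(-s / 2))) ^ 2 := by ring
    rw [this, x1, x2]; ring
  have hk00 : k 0 0 ≠ 0 := by
    intro h0
    have htr : tr δ = 0 := by
      have : δ = X * h * X⁻¹ := by rw [hh]; group
      rw [this, tr_conj, tr, e00, e11, ← hk1, h0]; ring
    have hδ1 : δ ≠ 1 := by
      intro h1
      rw [h1, tr_one] at htr
      norm_num at htr
    have := hΓ.two_lt hδ hδ1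
    rw [htr] at this
    norm_num at this
  have hk01 : k 0 1 ≠ 0 := by
    intro h0
    apply hne
    have hk10 : k 1 0 = 0 := by rw [h0] at hk2; linarith
    have hsq : k 0 0 ^ 2 = 1 := by rw [h0] at hksq; linarith
    have hkpm : k = 1 ∨ k = -1 := by
      have hsq' : k 0 0 * k 0 0 = 1 := by rw [← sq]; exact hsq
      rcases mul_self_eq_one_iff.mp hsq' with h1 | h1
      · left
        apply G_ext
        · rw [h1, one_00]
        · rw [h0, one_01]
        · rw [hk10, one_10]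
        · rw [← hk1, h1, one_11]
      · right
        apply G_ext
        · rw [h1]; rfl
        · rw [h0, neg_01, one_01, neg_zero]
        · rw [hk10, neg_10, one_10, neg_zero]
        · rw [← hk1, h1]; rfl
    have hδX : δ * X = X * h := by rw [hh]; group
    rcases hkpm with h1 | h1
    · rw [hδX, hhk, h1, mul_one, ← geo_add, line_mul_geo]
    · rw [hδX, hhk, h1, mul_neg, mul_one, neg_mul, mul_neg, line_neg, ← geo_add, line_mul_geo]
  rw [hPi, neg_lt_zero]
  positivity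

lemma not_simple_of_cross {X δ : G} (hcross : Pi4 (X⁻¹ * δ * X) < 0) :
    ¬ (line (δ * X) = line X ∨ Disjoint (line (δ * X)) (line X)) := by
  set h := X⁻¹ * δ * X with hh
  have hdet := G_det h
  unfold Pi4 at hcross
  -- signs
  have hbc : h 0 1 * h 1 0 < 0 := by
    by_contra hcon
    push Not at hcon
    have : 0 < h 0 0 * h 1 1 := by linarith
    have : 0 ≤ (h 0 0 * h 1 1) * (h 0 1 * h 1 0) := by positivity
    linarith
  have had : 0 < h 0 0 * h 1 1 := by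
    by_contra hcon
    push Not at hcon
    have : 0 ≤ (h 0 0 * h 1 1) * (h 0 1 * h 1 0) := mul_nonneg_of_nonpos_of_nonpos hcon hbc.le
    linarith
  have hd0 : h 1 1 ≠ 0 := fun h0 => by rw [h0, mul_zero] at had; exact lt_irrefl _ had
  have hc0 : h 1 0 ≠ 0 := fun h0 => by rw [h0, mul_zero] at hbc; exact lt_irrefl _ hbc
  have hr1 : 0 < h 0 0 / h 1 1 := by
    have : h 0 0 / h 1 1 = (h 0 0 * h 1 1) / (h 1 1) ^ 2 := by field_simp
    rw [this]; positivity
  have hr2 : 0 < -(h 0 1) / h 1 0 := by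
    have : -(h 0 1) / h 1 0 = -(h 0 1 * h 1 0) / (h 1 0) ^ 2 := by field_simp
    rw [this]
    apply div_pos (by linarith) (by positivity)
  set A := Real.log (h 0 0 / h 1 1) with hA
  set B := Real.log (-(h 0 1) / h 1 0) with hB
  have eA : h 0 0 = h 1 1 * Real.exp A := by
    rw [hA, Real.exp_log hr1]; field_simp
  have eB : h 0 1 = -(h 1 0 * Real.exp B) := by
    rw [hB, Real.exp_log hr2]; field_simp
  -- characterisation of intersection parameters
  have hchar : ∀ s t : ℝ, IsRot ((geo t)⁻¹ * h * geo s) ↔ (A = t - s ∧ B = s + t) := by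
    intro s t
    rw [rot_iff, eA, eB]
    constructor
    · rintro ⟨h1, h2⟩
      constructor
      · have h3 : Real.exp A * Real.exp ((s - t) / 2) = Real.exp (-((s - t) / 2)) := by
          apply mul_left_cancel₀ hd0; linarith
        rw [← Real.exp_add] at h3
        have := Real.exp_injective h3
        linarith
      · have h3 : Real.exp B * Real.exp (-((s + t) / 2)) = Real.exp ((s + t) / 2) := by
          apply mul_left_cancel₀ hc0; linarith
        rw [← Real.exp_add] at h3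
        have := Real.exp_injective h3
        linarith
    · rintro ⟨h1, h2⟩
      constructor
      · have h3 : Real.exp A * Real.exp ((s - t) / 2) = Real.exp (-((s - t) / 2)) := by
          rw [← Real.exp_add]; congr 1; linarith
        rw [mul_assoc, h3]
      · have h3 : Real.exp B * Real.exp (-((s + t) / 2)) = Real.exp ((s + t) / 2) := by
          rw [← Real.exp_add]; congr 1; linarith
        rw [neg_mul, mul_assoc, h3]
  rintro (heq | hdis)
  · have hmem : (δ * X * geo ((B - A) / 2 + 1)) • UpperHalfPlane.I ∈ line X := by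
      rw [← heq]
      exact ⟨_, rfl⟩
    obtain ⟨t', ht'⟩ := hmem
    have h1 := (mem_line_iff X δ ((B - A) / 2 + 1) t').mp ht'.symm
    obtain ⟨h2, h3⟩ := (hchar _ _).mp h1
    linarith
  · rw [Set.disjoint_iff] at hdis
    apply hdis (a := (δ * X * geo ((B - A) / 2)) • UpperHalfPlane.I)
    refine ⟨⟨_, rfl⟩, ⟨(A + B) / 2, ?_⟩⟩
    exact ((mem_line_iff X δ ((B - A) / 2) ((A + B) / 2)).mpr
      ((hchar _ _).mpr ⟨by ring, by ring⟩)).symm

/-- Automorphisms of `Γ` preserve the set of simple elements. -/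
theorem IsSurfaceGroup.simple_map (hΓ : IsSurfaceGroup Γ) {γ : Γ} (h : IsSimpleElt Γ γ)
    (φ : MulAut Γ) : IsSimpleElt Γ (φ γ) := by
  obtain ⟨h1, X, l, hl, hax, hclosed, hsimple⟩ := h
  have h1' : φ γ ≠ 1 := fun h => h1 (by simpa using h)
  have h1'' : ((φ γ : Γ) : G) ≠ 1 := fun h => h1' (Subtype.ext h)
  obtain ⟨X', l', hl', hax'⟩ := hΓ.exists_axis (φ γ).2 h1''
  refine ⟨h1', X', l', hl', hax', ⟨φ γ, (φ γ).2, l', hl', hax'⟩, ?_⟩
  by_contra hcon
  push Not at hcon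
  obtain ⟨δ', hδ', hne, hnd⟩ := hcon
  have hcross' := cross_of_meet hΓ hδ' hne hnd
  set δ : Γ := φ.symm ⟨δ', hδ'⟩ with hδdef
  have hφδ : φ δ = ⟨δ', hδ'⟩ := by rw [hδdef]; simp
  have hφη : φ (δ * γ * δ⁻¹) = φ δ * φ γ * (φ δ)⁻¹ := by simp
  have hcross'' : Pi4 (X'⁻¹ * ((φ δ : Γ) : G) * X') < 0 := by rw [hφδ]; exact hcross'
  have hCr' := hΓ.cr_of_cross hl' hax' hcross''
  have hCr : Cr γ (δ * γ * δ⁻¹) := by
    have := hCr'.map φ.symm
    rw [← hφη] at this
    simpa using this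
  rcases lt_trichotomy (Pi4 (X⁻¹ * (δ : G) * X)) 0 with hlt | heq | hgt
  · exact not_simple_of_cross hlt (hsimple δ δ.2)
  · have hcomm := (hΓ.commute_iff (δ := δ) hl hax).mpr heq
    have hcomm' : Commute (φ γ) (φ δ * φ γ * (φ δ)⁻¹) := by
      rw [← hφη]
      exact hcomm.map φ
    have := (hΓ.commute_iff (δ := φ δ) hl' hax').mp hcomm'
    rw [this] at hcross''
    exact lt_irrefl _ hcross''
  · exact hΓ.not_cr_of_unlinked hl hax hgt hCr

end Pool.Agent.SimpleAnosov
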