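import Pool.Agent.H55.SA.Cone1

open Matrix Filter Topology
open scoped MatrixGroups Matrix.Norms.Operator

set_option linter.unusedSimpArgs false

namespace Pool.Agent.SimpleAnosov

variable {Γ : Subgroup SL(2, ℝ)} {D : Set SL(2, ℝ)} {d k : ℕ}
  {P : SL(2, ℝ) → Matrix (Fin d) (Fin d) ℂ} {C c : ℝ}

lemma exists_mulVec_ne {A : Matrix (Fin d) (Fin d) ℂ} (h : A ≠ 0) : ∃ v, A *ᵥ v ≠ 0 := by
  by_contra hcon
  push Not at hcon
  apply h
  ext i j
  have := congrFun (hcon (Pi.single j 1)) i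
  simpa [Matrix.mulVec_single] using this

/-- The rank of a coarse dominated splitting of a representation which looks like `j` copies of
the inclusion and a trivial summand. -/
theorem coarse_rank (hΓ : IsSurfaceGroup Γ)
    (hcov : ∀ g : SL(2, ℝ), ∃ γ ∈ Γ, ∃ x ∈ D, g = γ * x)
    {σ : Γ →* Matrix (Fin d) (Fin d) ℂ} (H : Coarse D σ k P C c) (j : ℕ) (hjd : 2 * j ≤ d)
    (htr : ∀ γ : Γ, (σ γ).trace = (j : ℂ) * ((tr (γ : SL(2, ℝ)) : ℝ) : ℂ) + ((d : ℂ) - 2 * j))
    (hid : ∀ γ : Γ, (σ γ * σ γ - ((tr (γ : SL(2, ℝ)) : ℝ) : ℂ) • σ γ + 1) * (σ γ - 1) = 0) :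
    k = 0 ∨ k = j ∨ k = d - j ∨ k = d := by
  obtain ⟨γ₀, hne, h₀, l, hl, hax₀, hsc₀⟩ := hΓ.exists_simple
  obtain ⟨γ', hγ', h, hD, hh₀⟩ := hcov h₀
  set γ : Γ := ⟨γ', hγ'⟩⁻¹ * γ₀ * ⟨γ', hγ'⟩ with hγdef
  have hh : h = γ'⁻¹ * h₀ := by rw [hh₀]; group
  have hbs : h ∈ birmanSeries Γ := by
    rw [hh]; exact bs_smul (bs_of_simple hsc₀) (Γ.inv_mem hγ')
  have hax : (γ : SL(2, ℝ)) * h = h * geo l ∨ (γ : SL(2, ℝ)) * h = -(h * geo l) := by
    have e : (γ : SL(2, ℝ)) * h = γ'⁻¹ * ((γ₀ : SL(2, ℝ)) * h₀) := by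
      rw [hγdef, hh]; push_cast; group
    rw [e]
    rcases hax₀ with h1 | h1
    · left; rw [h1, hh, mul_assoc]
    · right; rw [h1, hh, mul_neg, mul_assoc]
  -- the eigenvalue
  obtain ⟨ε, hε, htrγ⟩ : ∃ ε : ℝ, (ε = 1 ∨ ε = -1) ∧
      tr (γ : SL(2, ℝ)) = ε * (Real.exp (l / 2) + Real.exp (-(l / 2))) := by
    have e : 2 * Real.cosh (l / 2) = Real.exp (l / 2) + Real.exp (-(l / 2)) := by
      rw [Real.cosh_eq]; ring
    rcases eq_conj_of_axis hax with h1 | h1
    · exact ⟨1, Or.inl rfl, by rw [h1, tr_conj, tr_geo, e, one_mul]⟩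
    · exact ⟨-1, Or.inr rfl, by rw [h1, tr_neg, tr_conj, tr_geo, e]; ring⟩
  set ar : ℝ := ε * Real.exp (l / 2) with har
  set br : ℝ := ε * Real.exp (-(l / 2)) with hbr
  have hab : ar * br = 1 := by
    have e1 : Real.exp (l / 2) * Real.exp (-(l / 2)) = 1 := by rw [← Real.exp_add]; simp
    have e2 : ε * ε = 1 := by rcases hε with h1 | h1 <;> rw [h1] <;> norm_num
    rw [har, hbr]; linear_combination (ε * ε) * e1 + e2
  have habs : |ar| = Real.exp (l / 2) := by
    rw [har, abs_mul, abs_of_pos (Real.exp_pos _)]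
    rcases hε with h1 | h1 <;> rw [h1] <;> simp
  have hbbs : |br| = Real.exp (-(l / 2)) := by
    rw [hbr, abs_mul, abs_of_pos (Real.exp_pos _)]
    rcases hε with h1 | h1 <;> rw [h1] <;> simp
  have ha1 : 1 < |ar| := by rw [habs]; exact Real.one_lt_exp_iff.mpr (by linarith)
  have hb1 : |br| < 1 := by rw [hbbs, ← Real.exp_zero]; exact Real.exp_lt_exp.mpr (by linarith)
  have hb0 : 0 < |br| := by rw [hbbs]; exact Real.exp_pos _
  have htr1 : tr (γ : SL(2, ℝ)) = ar + br := by rw [htrγ, har, hbr]; ring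
  have htr1' : tr ((γ⁻¹ : Γ) : SL(2, ℝ)) = ar + br := by
    push_cast; rw [tr_inv, htr1]
  have htr2 : tr ((γ⁻¹ * γ⁻¹ : Γ) : SL(2, ℝ)) = ar ^ 2 + br ^ 2 := by
    have e := tr_mul_tr ((γ : SL(2, ℝ))⁻¹) ((γ : SL(2, ℝ))⁻¹)
    rw [mul_inv_cancel, tr_one, tr_inv, htr1] at e
    push_cast
    linear_combination -e + 2 * hab
  set a : ℂ := (ar : ℂ) with ha
  set b : ℂ := (br : ℂ) with hb
  have habC : a * b = 1 := by rw [ha, hb]; exact_mod_cast hab
  have hna : ‖a‖ = |ar| := by rw [ha, Complex.norm_real]; rfl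
  have hnb : ‖b‖ = |br| := by rw [hb, Complex.norm_real]; rfl
  have hab' : a - b ≠ 0 := by
    intro h0
    have : a = b := by linear_combination h0
    have h2 : ‖a‖ = ‖b‖ := by rw [this]
    rw [hna, hnb] at h2
    linarith
  have ha1' : a - 1 ≠ 0 := by
    intro h0
    have : a = 1 := by linear_combination h0
    rw [this, norm_one] at hna
    linarith
  have hb1' : b - 1 ≠ 0 := by
    intro h0
    have : b = 1 := by linear_combination h0
    rw [this, norm_one] at hnb
    linarith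
  set B : Matrix (Fin d) (Fin d) ℂ := σ γ⁻¹ with hB
  have hpoly : (B - a • (1 : Matrix (Fin d) (Fin d) ℂ)) * (B - b • (1 : Matrix (Fin d) (Fin d) ℂ)) *
      (B - 1) = 0 := by
    have h1 := hid γ⁻¹
    rw [htr1'] at h1
    rw [← h1, hB]
    congr 1
    have hcast : ((ar + br : ℝ) : ℂ) = a + b := by push_cast; rfl
    have hone : (1 : Matrix (Fin d) (Fin d) ℂ) = (a * b) • 1 := by rw [habC, one_smul]
    rw [hcast]
    conv_rhs => rw [hone]
    simp only [sub_mul, mul_sub, smul_mul_assoc, mul_smul_comm, one_mul, mul_one]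
    module
  have hcomm : B * P h = P h * B := H.commute_of_frame' hbs hax
  set E1 : Matrix (Fin d) (Fin d) ℂ := ((a - b) * (a - 1))⁻¹ • ((B - b • 1) * (B - 1)) with hE1
  set E2 : Matrix (Fin d) (Fin d) ℂ := ((b - a) * (b - 1))⁻¹ • ((B - a • 1) * (B - 1)) with hE2
  set E3 : Matrix (Fin d) (Fin d) ℂ := ((1 - a) * (1 - b))⁻¹ • ((B - a • 1) * (B - b • 1)) with hE3
  have hba' : b - a ≠ 0 := by intro h0; apply hab'; linear_combination -h0
  have h1a : 1 - a ≠ 0 := by intro h0; apply ha1'; linear_combination -h0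
  have h1b : 1 - b ≠ 0 := by intro h0; apply hb1'; linear_combination -h0
  have hBE1 : B * E1 = a • E1 := by
    have h2 : (B - a • 1) * E1 = 0 := by
      rw [hE1, mul_smul_comm, ← mul_assoc, hpoly, smul_zero]
    rw [sub_mul, smul_mul_assoc, one_mul, sub_eq_zero] at h2
    exact h2
  have hcommpoly : (B - a • (1 : Matrix (Fin d) (Fin d) ℂ)) * (B - b • 1) =
      (B - b • 1) * (B - a • 1) := by
    simp only [sub_mul, mul_sub, smul_mul_assoc, mul_smul_comm, one_mul, mul_one]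
    module
  have hcommpoly2 : (B - b • (1 : Matrix (Fin d) (Fin d) ℂ)) * (B - 1) =
      (B - 1) * (B - b • 1) := by
    simp only [sub_mul, mul_sub, smul_mul_assoc, mul_smul_comm, one_mul, mul_one]
    module
  have hBE2 : B * E2 = b • E2 := by
    have h2 : (B - b • 1) * E2 = 0 := by
      rw [hE2, mul_smul_comm, ← mul_assoc, ← hcommpoly, hpoly, smul_zero]
    rw [sub_mul, smul_mul_assoc, one_mul, sub_eq_zero] at h2
    exact h2
  have hBE3 : B * E3 = (1 : ℂ) • E3 := by
    have h2 : (B - 1) * E3 = 0 := by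
      have h3 : (B - 1) * ((B - a • (1 : Matrix (Fin d) (Fin d) ℂ)) * (B - b • 1)) =
          (B - a • 1) * (B - b • 1) * (B - 1) := by
        simp only [sub_mul, mul_sub, smul_mul_assoc, mul_smul_comm, one_mul, mul_one, ← mul_assoc]
        module
      rw [hE3, mul_smul_comm, h3, hpoly, smul_zero]
    rw [sub_mul, one_mul, sub_eq_zero] at h2
    rw [one_smul]; exact h2
  have hsum : E1 + E2 + E3 = 1 := by
    have e1 : (B - b • (1 : Matrix (Fin d) (Fin d) ℂ)) * (B - 1) =
        B * B - (b + 1) • B + b • 1 := by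
      simp only [sub_mul, mul_sub, smul_mul_assoc, mul_smul_comm, one_mul, mul_one]
      module
    have e2 : (B - a • (1 : Matrix (Fin d) (Fin d) ℂ)) * (B - 1) =
        B * B - (a + 1) • B + a • 1 := by
      simp only [sub_mul, mul_sub, smul_mul_assoc, mul_smul_comm, one_mul, mul_one]
      module
    have e3 : (B - a • (1 : Matrix (Fin d) (Fin d) ℂ)) * (B - b • 1) =
        B * B - (a + b) • B + (a * b) • 1 := by
      simp only [sub_mul, mul_sub, smul_mul_assoc, mul_smul_comm, one_mul, mul_one]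
      module
    rw [hE1, hE2, hE3, e1, e2, e3]
    have c2 : ((a - b) * (a - 1))⁻¹ + ((b - a) * (b - 1))⁻¹ + ((1 - a) * (1 - b))⁻¹ = 0 := by
      field_simp; ring
    have c1 : ((a - b) * (a - 1))⁻¹ * (b + 1) + ((b - a) * (b - 1))⁻¹ * (a + 1) +
        ((1 - a) * (1 - b))⁻¹ * (a + b) = 0 := by
      field_simp; ring
    have c0 : ((a - b) * (a - 1))⁻¹ * b + ((b - a) * (b - 1))⁻¹ * a +
        ((1 - a) * (1 - b))⁻¹ * (a * b) = 1 := by
      field_simp; ring
    have expand : ((a - b) * (a - 1))⁻¹ • (B * B - (b + 1) • B + b • (1 : Matrix (Fin d) (Fin d) ℂ)) +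
        ((b - a) * (b - 1))⁻¹ • (B * B - (a + 1) • B + a • 1) +
        ((1 - a) * (1 - b))⁻¹ • (B * B - (a + b) • B + (a * b) • 1) =
        (((a - b) * (a - 1))⁻¹ + ((b - a) * (b - 1))⁻¹ + ((1 - a) * (1 - b))⁻¹) • (B * B) -
        (((a - b) * (a - 1))⁻¹ * (b + 1) + ((b - a) * (b - 1))⁻¹ * (a + 1) +
          ((1 - a) * (1 - b))⁻¹ * (a + b)) • B +
        (((a - b) * (a - 1))⁻¹ * b + ((b - a) * (b - 1))⁻¹ * a +
          ((1 - a) * (1 - b))⁻¹ * (a * b)) • (1 : Matrix (Fin d) (Fin d) ℂ) := by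
      module
    rw [expand, c2, c1, c0, zero_smul, zero_smul, one_smul]
    abel
  -- traces
  have htB : B.trace = j * (a + b) + (d - 2 * j) := by
    rw [hB, htr γ⁻¹, htr1']; push_cast; rfl
  have htBB : (B * B).trace = j * (a ^ 2 + b ^ 2) + (d - 2 * j) := by
    have e : B * B = σ (γ⁻¹ * γ⁻¹) := by rw [map_mul]
    rw [e, htr, htr2]; push_cast; rfl
  have ht1 : (1 : Matrix (Fin d) (Fin d) ℂ).trace = d := by simp
  have htE1 : E1.trace = j := by
    have e1 : (B - b • (1 : Matrix (Fin d) (Fin d) ℂ)) * (B - 1) =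
        B * B - (b + 1) • B + b • 1 := by
      simp only [sub_mul, mul_sub, smul_mul_assoc, mul_smul_comm, one_mul, mul_one]
      module
    rw [hE1, e1, trace_smul, trace_add, trace_sub, trace_smul, trace_smul, htB, htBB, ht1]
    simp only [smul_eq_mul]
    rw [inv_mul_eq_iff_eq_mul₀ (mul_ne_zero hab' ha1')]
    linear_combination (-2 * (j : ℂ)) * habC + 2 * j * habC
  have htE2 : E2.trace = j := by
    have e2 : (B - a • (1 : Matrix (Fin d) (Fin d) ℂ)) * (B - 1) =
        B * B - (a + 1) • B + a • 1 := by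
      simp only [sub_mul, mul_sub, smul_mul_assoc, mul_smul_comm, one_mul, mul_one]
      module
    rw [hE2, e2, trace_smul, trace_add, trace_sub, trace_smul, trace_smul, htB, htBB, ht1]
    simp only [smul_eq_mul]
    rw [inv_mul_eq_iff_eq_mul₀ (mul_ne_zero hba' hb1')]
    ring
  have htE3 : E3.trace = d - 2 * j := by
    have h3 : E3 = 1 - E1 - E2 := by rw [← hsum]; abel
    rw [h3, trace_sub, trace_sub, htE1, htE2, ht1]; ring
  -- idempotents commute with P
  have hPE : ∀ X Y : Matrix (Fin d) (Fin d) ℂ, B * X = X * B → True := fun _ _ _ => trivial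
  have hid' := H.idem h hbs
  have hcP : ∀ z w : ℂ, P h * ((B - z • 1) * (B - w • 1)) = ((B - z • 1) * (B - w • 1)) * P h := by
    intro z w
    have g1 : ∀ z : ℂ, P h * (B - z • 1) = (B - z • 1) * P h := by
      intro z
      rw [mul_sub, sub_mul, hcomm, mul_smul_comm, smul_mul_assoc, mul_one, one_mul]
    rw [← mul_assoc, g1, mul_assoc, g1, mul_assoc]
  have hP1 : P h * E1 = E1 * P h := by
    have := hcP b 1
    rw [one_smul] at this
    rw [hE1, mul_smul_comm, this, smul_mul_assoc]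
  have hP2 : P h * E2 = E2 * P h := by
    have := hcP a 1
    rw [one_smul] at this
    rw [hE2, mul_smul_comm, this, smul_mul_assoc]
  have hP3 : P h * E3 = E3 * P h := by
    rw [hE3, mul_smul_comm, hcP a b, smul_mul_assoc]
  -- the separation of eigenvalues
  have key : ∀ (X Y : Matrix (Fin d) (Fin d) ℂ) (μ μ' : ℂ), P h * X = X * P h →
      P h * Y = Y * P h → B * X = μ • X → B * Y = μ' • Y → P h * X ≠ 0 → (1 - P h) * Y ≠ 0 →
      ‖μ'‖ < ‖μ‖ := by
    intro X Y μ μ' hX hY hBX hBY hPX hPY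
    obtain ⟨v, hv⟩ := exists_mulVec_ne hPX
    obtain ⟨w, hw⟩ := exists_mulVec_ne hPY
    refine H.eig_lt hbs hD hl hax hv hw ?_ ?_ ?_ ?_
    · rw [mulVec_mulVec, ← mul_assoc, hid']
    · rw [mulVec_mulVec, ← mul_assoc, mul_sub, mul_one, hid', sub_self, zero_mul, zero_mulVec]
    · rw [mulVec_mulVec, ← mul_assoc, ← hB, hcomm, mul_assoc, hBX, mul_smul_comm, smul_mulVec]
    · have h3 : B * (1 - P h) = (1 - P h) * B := by
        rw [mul_sub, sub_mul, mul_one, one_mul, hcomm]
      rw [mulVec_mulVec, ← mul_assoc, ← hB, h3, mul_assoc, hBY, mul_smul_comm, smul_mulVec]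
  have hk := H.trace_P h hbs
  have hdecomp : P h = P h * E1 + P h * E2 + P h * E3 := by
    rw [← mul_add, ← mul_add, hsum, mul_one]
  have hsub : ∀ X : Matrix (Fin d) (Fin d) ℂ, (1 - P h) * X = 0 → P h * X = X := by
    intro X hX
    rw [sub_mul, one_mul, sub_eq_zero] at hX
    exact hX.symm
  by_cases h2 : P h * E2 = 0
  · by_cases h3 : P h * E3 = 0
    · by_cases h1 : P h * E1 = 0
      · left
        rw [h1, h2, h3] at hdecomp
        rw [hdecomp] at hk
        simp only [add_zero, trace_zero] at hk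
        exact_mod_cast hk.symm
      · right; left
        have h4 : (1 - P h) * E1 = 0 := by
          by_contra hne
          exact lt_irrefl _ (key E1 E1 a a hP1 hP1 hBE1 hBE1 h1 hne)
        rw [h2, h3, hsub _ h4, add_zero, add_zero] at hdecomp
        rw [hdecomp, htE1] at hk
        exact_mod_cast hk.symm
    · right; right; left
      have h4 : (1 - P h) * E1 = 0 := by
        by_contra hne
        have := key E3 E1 1 a hP3 hP1 hBE3 hBE1 h3 hne
        rw [norm_one, hna] at this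
        linarith
      have h5 : (1 - P h) * E3 = 0 := by
        by_contra hne
        exact lt_irrefl _ (key E3 E3 1 1 hP3 hP3 hBE3 hBE3 h3 hne)
      rw [h2, hsub _ h4, hsub _ h5, add_zero] at hdecomp
      rw [hdecomp, trace_add, htE1, htE3] at hk
      have h6 : ((d - j : ℕ) : ℂ) = (d : ℂ) - j := by
        rw [Nat.cast_sub (by omega)]
      have h7 : (k : ℂ) = ((d - j : ℕ) : ℂ) := by rw [h6, ← hk]; ring
      exact_mod_cast h7
  · right; right; right
    have h4 : (1 - P h) * E1 = 0 := by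
      by_contra hne
      have := key E2 E1 b a hP2 hP1 hBE2 hBE1 h2 hne
      rw [hna, hnb] at this
      linarith
    have h5 : (1 - P h) * E3 = 0 := by
      by_contra hne
      have := key E2 E3 b 1 hP2 hP3 hBE2 hBE3 h2 hne
      rw [norm_one, hnb] at this
      linarith
    have h6 : (1 - P h) * E2 = 0 := by
      by_contra hne
      exact lt_irrefl _ (key E2 E2 b b hP2 hP2 hBE2 hBE2 h2 hne)
    rw [hsub _ h4, hsub _ h5, hsub _ h6, hsum] at hdecomp
    rw [hdecomp, ht1] at hk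
    exact_mod_cast hk.symm

end Pool.Agent.SimpleAnosov
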