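import Pool.Agent.H76.SA.Fuchs5

open Matrix Filter Topology
open scoped MatrixGroups

set_option linter.unusedSimpArgs false

namespace Pool.Agent.SimpleAnosov

variable {Γ : Subgroup G}

/-- The upper triangular matrix taking `i` to `x + i y`. -/
noncomputable def nz (x y : ℝ) (hy : 0 < y) : G :=
  mk (√y) (x / √y) 0 (1 / √y) (by
    have : √y ≠ 0 := (Real.sqrt_pos.mpr hy).ne'
    field_simp; ring)

lemma mul_bdd {g h : G} {A B : ℝ} (hA : 0 ≤ A) (hg : ∀ i j, |g i j| ≤ A)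
    (hh : ∀ i j, |h i j| ≤ B) : ∀ i j, |(g * h) i j| ≤ 2 * A * B := by
  intro i j
  rw [mul_ij]
  calc |g i 0 * h 0 j + g i 1 * h 1 j| ≤ |g i 0 * h 0 j| + |g i 1 * h 1 j| := abs_add_le _ _
    _ ≤ A * B + A * B := by
        rw [abs_mul, abs_mul]
        exact add_le_add (mul_le_mul (hg i 0) (hh 0 j) (abs_nonneg _) hA)
          (mul_le_mul (hg i 1) (hh 1 j) (abs_nonneg _) hA)
    _ = 2 * A * B := by ring

lemma bdd_of_entries {g : G} {B : ℝ} (h00 : |g 0 0| ≤ B) (h01 : |g 0 1| ≤ B) (h10 : |g 1 0| ≤ B)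
    (h11 : |g 1 1| ≤ B) : ∀ i j, |g i j| ≤ B := by
  intro i j
  fin_cases i <;> fin_cases j <;> assumption

lemma nz_close {x y x' y' m : ℝ} (hy : 0 < y) (hy' : 0 < y') (hm : 0 < m) (hmy : m ≤ y)
    (hmy' : m ≤ y') (hx : |x' - x| ≤ m) (hyy : |y' - y| ≤ m) :
    ∀ i j, |((nz x y hy)⁻¹ * nz x' y' hy') i j| ≤ 2 := by
  have hs : 0 < √y := Real.sqrt_pos.mpr hy
  have hs' : 0 < √y' := Real.sqrt_pos.mpr hy'
  have hsq : √y ^ 2 = y := Real.sq_sqrt hy.le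
  have hsq' : √y' ^ 2 = y' := Real.sq_sqrt hy'.le
  obtain ⟨h1, h2⟩ := abs_le.mp hyy
  have r1 : √y' ≤ 2 * √y := by
    apply Real.sqrt_le_iff.mpr
    refine ⟨by positivity, ?_⟩
    rw [mul_pow, hsq]; linarith
  have r2 : √y ≤ 2 * √y' := by
    apply Real.sqrt_le_iff.mpr
    refine ⟨by positivity, ?_⟩
    rw [mul_pow, hsq']; linarith
  have hmm : m ≤ √y * √y' := by
    rw [← Real.sqrt_mul hy.le]
    apply Real.le_sqrt_of_sq_le
    nlinarith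
  apply bdd_of_entries
  · rw [mul_00, inv_00, inv_01, nz, nz, mk_11, mk_01, mk_00, mk_10, mul_zero, add_zero,
      one_div_mul_eq_div, abs_of_pos (by positivity), div_le_iff₀ hs]
    exact r1
  · rw [mul_01, inv_00, inv_01, nz, nz, mk_11, mk_01, mk_01, mk_11]
    have e : 1 / √y * (x' / √y') + -(x / √y) * (1 / √y') = (x' - x) / (√y * √y') := by
      field_simp; ring
    rw [e, abs_div, abs_of_pos (by positivity : 0 < √y * √y'), div_le_iff₀ (by positivity)]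
    linarith
  · rw [mul_10, inv_10, inv_11, nz, nz, mk_10, mk_10, mk_00]
    simp
  · rw [mul_11, inv_10, inv_11, nz, nz, mk_10, mk_00, mk_01, mk_11]
    have e : -(0:ℝ) * (x' / √y') + √y * (1 / √y') = √y / √y' := by field_simp; ring
    rw [e, abs_of_pos (by positivity), div_le_iff₀ hs']
    exact r2

/-- Orbit chains following a Euclidean segment in the upper half plane. -/
theorem IsSurfaceGroup.exists_chain (hΓ : IsSurfaceGroup Γ) :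
    ∃ (E : Set G) (D : ℝ), E.Finite ∧ E ⊆ Γ ∧ 1 ≤ D ∧
      ∀ (X : G) (x₁ y₁ x₂ y₂ : ℝ) (h₁ : 0 < y₁) (h₂ : 0 < y₂) (γ₁ γ₂ : G), γ₁ ∈ Γ → γ₂ ∈ Γ →
      (∀ i j, |(γ₁⁻¹ * X * nz x₁ y₁ h₁) i j| ≤ D) → (∀ i j, |(γ₂⁻¹ * X * nz x₂ y₂ h₂) i j| ≤ D) →
      ∃ (n : ℕ) (p : ℕ → G), p 0 = γ₁ ∧ p n = γ₂ ∧ (∀ i < n, (p i)⁻¹ * p (i + 1) ∈ E) ∧
        ∀ i ≤ n, p i ∈ Γ ∧ ∃ τ : ℝ, 0 ≤ τ ∧ τ ≤ 1 ∧
          ∃ hy : 0 < (1 - τ) * y₁ + τ * y₂, ∀ a b,
          |((p i)⁻¹ * X * nz ((1 - τ) * x₁ + τ * x₂) ((1 - τ) * y₁ + τ * y₂) hy) a b| ≤ D := by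
  obtain ⟨B, hB, hcov⟩ := hΓ.exists_cocompact_bdd
  set D : ℝ := max 1 B with hD
  have hD1 : 1 ≤ D := le_max_left _ _
  have hDB : B ≤ D := le_max_right _ _
  refine ⟨{g : G | g ∈ Γ ∧ ∀ i j, |g i j| ≤ 2 * (2 * D * 2) * D}, D, hΓ.finite_bdd _,
    fun g hg => hg.1, hD1, ?_⟩
  intro X x₁ y₁ x₂ y₂ h₁ h₂ γ₁ γ₂ hγ₁ hγ₂ hc₁ hc₂
  set m : ℝ := min y₁ y₂ with hm
  have hm0 : 0 < m := lt_min h₁ h₂
  obtain ⟨N, hN⟩ := exists_nat_gt ((|x₂ - x₁| + |y₂ - y₁| + 1) / m)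
  have hNpos : (0 : ℝ) < N := lt_of_le_of_lt (by positivity) hN
  have hN0 : 0 < N := by exact_mod_cast hNpos
  rw [div_lt_iff₀ hm0] at hN
  have hypos : ∀ τ : ℝ, 0 ≤ τ → τ ≤ 1 → m ≤ (1 - τ) * y₁ + τ * y₂ := by
    intro τ h0 h1
    have e1 : m ≤ y₁ := min_le_left _ _
    have e2 : m ≤ y₂ := min_le_right _ _
    nlinarith
  have hypos' : ∀ τ : ℝ, 0 ≤ τ → τ ≤ 1 → 0 < (1 - τ) * y₁ + τ * y₂ := fun τ h0 h1 =>
    hm0.trans_le (hypos τ h0 h1)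
  choose P hP hPc using hcov
  -- the path
  let c : ℝ → G := fun τ => if h : 0 ≤ τ ∧ τ ≤ 1 then
    X * nz ((1 - τ) * x₁ + τ * x₂) ((1 - τ) * y₁ + τ * y₂) (hypos' τ h.1 h.2) else 1
  have hc : ∀ τ (h0 : 0 ≤ τ) (h1 : τ ≤ 1), c τ =
      X * nz ((1 - τ) * x₁ + τ * x₂) ((1 - τ) * y₁ + τ * y₂) (hypos' τ h0 h1) := by
    intro τ h0 h1
    simp only [c]
    rw [dif_pos ⟨h0, h1⟩]
  let p : ℕ → G := fun k => if k = 0 then γ₁ else if N ≤ k then γ₂ else P (c (k / N))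
  have hp0 : p 0 = γ₁ := by simp [p]
  have hpN : p N = γ₂ := by simp [p, hN0.ne']
  have hτ : ∀ k : ℕ, k ≤ N → (0 : ℝ) ≤ k / N ∧ (k : ℝ) / N ≤ 1 := by
    intro k hk
    refine ⟨by positivity, ?_⟩
    rw [div_le_one hNpos]; exact_mod_cast hk
  have hpk : ∀ k : ℕ, k ≤ N → p k ∈ Γ ∧ ∀ a b, |((p k)⁻¹ * c (k / N)) a b| ≤ D := by
    intro k hk
    by_cases h0 : k = 0
    · subst h0
      rw [hp0]
      refine ⟨hγ₁, ?_⟩
      have e : c ((0 : ℕ) / N) = X * nz x₁ y₁ h₁ := by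
        rw [hc _ (hτ 0 hk).1 (hτ 0 hk).2]
        simp
      rw [e, ← mul_assoc]
      exact hc₁
    · by_cases hkN : k = N
      · subst hkN
        rw [hpN]
        refine ⟨hγ₂, ?_⟩
        have e : c ((k : ℕ) / k) = X * nz x₂ y₂ h₂ := by
          rw [hc _ (hτ k hk).1 (hτ k hk).2]
          have : (k : ℝ) / k = 1 := div_self (by positivity)
          simp [this]
        rw [e, ← mul_assoc]
        exact hc₂
      · have e : p k = P (c (k / N)) := by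
          simp only [p]
          rw [if_neg h0, if_neg (by omega)]
        rw [e]
        refine ⟨hP _, ?_⟩
        obtain ⟨k', hk', hx⟩ := hPc (c (k / N))
        have e2 : (P (c (k / N)))⁻¹ * c (k / N) = k' := by
          rw [inv_mul_eq_iff_eq_mul]; exact hx
        rw [e2]
        intro a b
        exact (hk' a b).trans hDB
  refine ⟨N, p, hp0, hpN, ?_, ?_⟩
  · intro i hi
    obtain ⟨hi1, hi2⟩ := hpk i hi.le
    obtain ⟨hj1, hj2⟩ := hpk (i + 1) hi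
    refine ⟨Γ.mul_mem (Γ.inv_mem hi1) hj1, ?_⟩
    have hclose : ∀ a b, |((c (i / N))⁻¹ * c ((i + 1 : ℕ) / N)) a b| ≤ 2 := by
      rw [hc _ (hτ i hi.le).1 (hτ i hi.le).2, hc _ (hτ (i + 1) hi).1 (hτ (i + 1) hi).2]
      have e : ∀ (u v : G), (X * u)⁻¹ * (X * v) = u⁻¹ * v := by intro u v; group
      rw [e]
      have hdiff : ((i + 1 : ℕ) : ℝ) / N - i / N = 1 / N := by push_cast; ring
      refine nz_close _ _ hm0 (hypos _ (hτ i hi.le).1 (hτ i hi.le).2)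
        (hypos _ (hτ (i + 1) hi).1 (hτ (i + 1) hi).2) ?_ ?_
      · have e3 : (1 - ((i + 1 : ℕ) : ℝ) / N) * x₁ + ((i + 1 : ℕ) : ℝ) / N * x₂ -
            ((1 - (i : ℝ) / N) * x₁ + (i : ℝ) / N * x₂) = (1 / N) * (x₂ - x₁) := by
          rw [← hdiff]; ring
        rw [e3, abs_mul, abs_of_pos (by positivity : (0:ℝ) < 1 / N), one_div_mul_eq_div,
          div_le_iff₀ hNpos]
        have := abs_nonneg (y₂ - y₁)
        nlinarith
      · have e3 : (1 - ((i + 1 : ℕ) : ℝ) / N) * y₁ + ((i + 1 : ℕ) : ℝ) / N * y₂ -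
            ((1 - (i : ℝ) / N) * y₁ + (i : ℝ) / N * y₂) = (1 / N) * (y₂ - y₁) := by
          rw [← hdiff]; ring
        rw [e3, abs_mul, abs_of_pos (by positivity : (0:ℝ) < 1 / N), one_div_mul_eq_div,
          div_le_iff₀ hNpos]
        have := abs_nonneg (x₂ - x₁)
        nlinarith
    have e4 : (p i)⁻¹ * p (i + 1) = ((p i)⁻¹ * c (i / N)) *
        ((c (i / N))⁻¹ * c ((i + 1 : ℕ) / N)) * ((p (i + 1))⁻¹ * c ((i + 1 : ℕ) / N))⁻¹ := by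
      group
    rw [e4]
    have hD0 : 0 ≤ D := by linarith
    exact mul_bdd (by positivity) (mul_bdd hD0 hi2 hclose) (inv_bdd hj2)
  · intro i hi
    obtain ⟨hi1, hi2⟩ := hpk i hi
    refine ⟨hi1, i / N, (hτ i hi).1, (hτ i hi).2, hypos' _ (hτ i hi).1 (hτ i hi).2, ?_⟩
    rw [hc _ (hτ i hi).1 (hτ i hi).2] at hi2
    rw [mul_assoc]
    exact hi2

end Pool.Agent.SimpleAnosov
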