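import Pool.Agent.H55.SA.Defs

open Matrix Filter Topology
open scoped MatrixGroups

namespace Pool.Agent.SimpleAnosov

/-- The group `SL(2, ℝ)`. -/
abbrev G := Matrix.SpecialLinearGroup (Fin 2) ℝ

@[simp] lemma geo_00 (t : ℝ) : geo t 0 0 = Real.exp (t / 2) := rfl
@[simp] lemma geo_01 (t : ℝ) : geo t 0 1 = 0 := rfl
@[simp] lemma geo_10 (t : ℝ) : geo t 1 0 = 0 := rfl
@[simp] lemma geo_11 (t : ℝ) : geo t 1 1 = Real.exp (-(t / 2)) := rfl

lemma G_ext {g h : G} (h00 : g 0 0 = h 0 0) (h01 : g 0 1 = h 0 1) (h10 : g 1 0 = h 1 0)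
    (h11 : g 1 1 = h 1 1) : g = h := by
  ext i j
  fin_cases i <;> fin_cases j <;> assumption

lemma mul_00 (g h : G) : (g * h) 0 0 = g 0 0 * h 0 0 + g 0 1 * h 1 0 := by
  simp [Matrix.mul_apply, Fin.sum_univ_two]
lemma mul_01 (g h : G) : (g * h) 0 1 = g 0 0 * h 0 1 + g 0 1 * h 1 1 := by
  simp [Matrix.mul_apply, Fin.sum_univ_two]
lemma mul_10 (g h : G) : (g * h) 1 0 = g 1 0 * h 0 0 + g 1 1 * h 1 0 := by
  simp [Matrix.mul_apply, Fin.sum_univ_two]
lemma mul_11 (g h : G) : (g * h) 1 1 = g 1 0 * h 0 1 + g 1 1 * h 1 1 := by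
  simp [Matrix.mul_apply, Fin.sum_univ_two]

lemma G_det (g : G) : g 0 0 * g 1 1 - g 0 1 * g 1 0 = 1 := by
  have := g.det_coe
  rwa [Matrix.det_fin_two] at this

lemma inv_00 (g : G) : g⁻¹ 0 0 = g 1 1 := by
  simp [Matrix.SpecialLinearGroup.SL2_inv_expl]
lemma inv_01 (g : G) : g⁻¹ 0 1 = - g 0 1 := by
  simp [Matrix.SpecialLinearGroup.SL2_inv_expl]
lemma inv_10 (g : G) : g⁻¹ 1 0 = - g 1 0 := by
  simp [Matrix.SpecialLinearGroup.SL2_inv_expl]
lemma inv_11 (g : G) : g⁻¹ 1 1 = g 0 0 := by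
  simp [Matrix.SpecialLinearGroup.SL2_inv_expl]

lemma neg_00 (g : G) : (-g) 0 0 = - g 0 0 := rfl
lemma neg_01 (g : G) : (-g) 0 1 = - g 0 1 := rfl
lemma neg_10 (g : G) : (-g) 1 0 = - g 1 0 := rfl
lemma neg_11 (g : G) : (-g) 1 1 = - g 1 1 := rfl

lemma one_00 : (1 : G) 0 0 = 1 := rfl
lemma one_01 : (1 : G) 0 1 = 0 := rfl
lemma one_10 : (1 : G) 1 0 = 0 := rfl
lemma one_11 : (1 : G) 1 1 = 1 := rfl

lemma geo_add (s t : ℝ) : geo (s + t) = geo s * geo t := by
  apply G_ext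
  · rw [mul_00]; simp [← Real.exp_add]; ring
  · rw [mul_01]; simp
  · rw [mul_10]; simp
  · rw [mul_11]; simp [← Real.exp_add]; ring

@[simp] lemma geo_zero : geo 0 = 1 := by
  apply G_ext <;> simp

lemma geo_neg (t : ℝ) : geo (-t) = (geo t)⁻¹ := by
  rw [eq_inv_iff_mul_eq_one, ← geo_add]; simp

lemma geo_nat_mul (n : ℕ) (t : ℝ) : geo (n * t) = geo t ^ n := by
  induction n with
  | zero => simp
  | succ n ih => rw [pow_succ, ← ih, ← geo_add]; congr 1; push_cast; ring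

lemma geo_int_mul (n : ℤ) (t : ℝ) : geo (n * t) = geo t ^ n := by
  cases n with
  | ofNat n => simpa using geo_nat_mul n t
  | negSucc n =>
    rw [zpow_negSucc, ← geo_nat_mul, ← geo_neg]; congr 1; push_cast; ring

/-- The trace of an element of `SL(2, ℝ)`. -/
def tr (g : G) : ℝ := g 0 0 + g 1 1

lemma tr_eq (g : G) : tr g = (g : Matrix (Fin 2) (Fin 2) ℝ).trace := by
  simp [tr, Matrix.trace_fin_two]

lemma tr_mul_comm (g h : G) : tr (g * h) = tr (h * g) := by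
  rw [tr, tr, mul_00, mul_11, mul_00, mul_11]; ring

lemma tr_conj (g h : G) : tr (h * g * h⁻¹) = tr g := by
  rw [tr_mul_comm, ← mul_assoc, inv_mul_cancel, one_mul]

lemma tr_neg (g : G) : tr (-g) = - tr g := by
  rw [tr, tr, neg_00, neg_11]; ring

lemma tr_one : tr 1 = 2 := by rw [tr, one_00, one_11]; norm_num

lemma tr_inv (g : G) : tr g⁻¹ = tr g := by
  rw [tr, tr, inv_00, inv_11]; ring

/-- The trace identity. -/
lemma tr_mul_tr (g h : G) : tr g * tr h = tr (g * h) + tr (g * h⁻¹) := by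
  rw [tr, tr, tr, tr, mul_00, mul_11, mul_00, mul_11, inv_00, inv_01, inv_10, inv_11]; ring

lemma tr_geo (t : ℝ) : tr (geo t) = 2 * Real.cosh (t / 2) := by
  rw [tr, geo_00, geo_11, Real.cosh_eq]; ring

/-- Bounded closed sets of matrices in `SL(2, ℝ)` are compact. -/
lemma isCompact_bdd (B : ℝ) : IsCompact {g : G | ∀ i j, |g i j| ≤ B} := by
  have hc : IsCompact (Set.pi Set.univ
      (fun _ : Fin 2 => Set.pi Set.univ (fun _ : Fin 2 => Set.Icc (-B) B))) :=
    isCompact_univ_pi (fun _ => isCompact_univ_pi (fun _ => isCompact_Icc))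
  have := (Matrix.SpecialLinearGroup.isClosedEmbedding_val (n := Fin 2) (R := ℝ)).isCompact_preimage
    hc
  have heq : {g : G | ∀ i j, |g i j| ≤ B} =
      ((fun g : G => (g : Matrix (Fin 2) (Fin 2) ℝ)) ⁻¹' (Set.pi Set.univ
      (fun _ : Fin 2 => Set.pi Set.univ (fun _ : Fin 2 => Set.Icc (-B) B)))) := by
    ext g
    constructor
    · intro h i _ j _
      exact abs_le.mp (h i j)
    · intro h i j
      exact abs_le.mpr (h i trivial j trivial)
  rw [heq]
  exact this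

/-- A compact set is bounded entrywise. -/
lemma IsCompact.exists_bdd {C : Set G} (hC : IsCompact C) :
    ∃ B : ℝ, 0 < B ∧ ∀ g ∈ C, ∀ i j, |g i j| ≤ B := by
  have h : ∀ i j : Fin 2, ∃ B : ℝ, ∀ g ∈ C, |g i j| ≤ B := by
    intro i j
    have hcont : Continuous (fun g : G => |g i j|) := by
      have h1 : Continuous (fun g : G => (g : Matrix (Fin 2) (Fin 2) ℝ)) :=
        continuous_subtype_val
      exact (h1.matrix_elem i j).abs
    obtain ⟨B, hB⟩ := (hC.image hcont).bddAbove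
    exact ⟨B, fun g hg => hB ⟨g, hg, rfl⟩⟩
  choose B hB using h
  refine ⟨∑ i, ∑ j, |B i j| + 1, by positivity, fun g hg i j => ?_⟩
  have h1 : |g i j| ≤ |B i j| := (hB i j g hg).trans (le_abs_self _)
  have h2 : |B i j| ≤ ∑ j, |B i j| :=
    Finset.single_le_sum (f := fun j => |B i j|) (fun _ _ => abs_nonneg _) (Finset.mem_univ j)
  have h3 : ∑ j, |B i j| ≤ ∑ i, ∑ j, |B i j| :=
    Finset.single_le_sum (f := fun i => ∑ j, |B i j|)
      (fun _ _ => Finset.sum_nonneg (fun _ _ => abs_nonneg _)) (Finset.mem_univ i)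
  linarith

lemma finite_inter {Γ : Subgroup G} (hd : DiscreteTopology Γ) {C : Set G} (hC : IsCompact C) :
    ((Γ : Set G) ∩ C).Finite := by
  have hcl : IsClosed (Γ : Set G) := Subgroup.isClosed_of_discrete
  have hcomp : IsCompact ((Γ : Set G) ∩ C) := hC.inter_left hcl
  have hdisc : IsDiscrete (Γ : Set G) := isDiscrete_iff_discreteTopology.mpr hd
  have hdisc' : IsDiscrete ((Γ : Set G) ∩ C) := hdisc.mono Set.inter_subset_left
  exact hcomp.finite hdisc'

end Pool.Agent.SimpleAnosov
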