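import Pool.Agent.H76.SA.Fuchs1

open Matrix Filter Topology
open scoped MatrixGroups

set_option linter.unusedSimpArgs false

namespace Pool.Agent.SimpleAnosov

/-- Build an element of `SL(2, ℝ)` from entries. -/
def mk (p q r s : ℝ) (h : p * s - q * r = 1) : G :=
  ⟨!![p, q; r, s], by rw [Matrix.det_fin_two]; simpa using h⟩

@[simp] lemma mk_00 (p q r s : ℝ) (h : p * s - q * r = 1) : mk p q r s h 0 0 = p := rfl
@[simp] lemma mk_01 (p q r s : ℝ) (h : p * s - q * r = 1) : mk p q r s h 0 1 = q := rfl
@[simp] lemma mk_10 (p q r s : ℝ) (h : p * s - q * r = 1) : mk p q r s h 1 0 = r := rfl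
@[simp] lemma mk_11 (p q r s : ℝ) (h : p * s - q * r = 1) : mk p q r s h 1 1 = s := rfl

lemma exists_diag_of_two_lt {g : G} (h : 2 < tr g) :
    ∃ (x : G) (l : ℝ), 0 < l ∧ g * x = x * geo l := by
  obtain ⟨lam, mu, h1, hsum, hprod⟩ : ∃ lam mu : ℝ, 1 < lam ∧ lam + mu = tr g ∧ lam * mu = 1 := by
    refine ⟨(tr g + √(tr g ^ 2 - 4)) / 2, (tr g - √(tr g ^ 2 - 4)) / 2, ?_, by ring, ?_⟩
    · have : 0 ≤ √(tr g ^ 2 - 4) := Real.sqrt_nonneg _
      linarith
    · have : √(tr g ^ 2 - 4) ^ 2 = tr g ^ 2 - 4 := Real.sq_sqrt (by nlinarith)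
      nlinarith
  have hmu : mu < lam := by nlinarith
  have hmupos : 0 < mu := by
    by_contra hc
    push Not at hc
    nlinarith
  have hne : mu - lam ≠ 0 := by linarith
  have hlam0 : 0 < lam := by linarith
  have hl : Real.exp ((2 * Real.log lam) / 2) = lam := by
    rw [mul_div_cancel_left₀ _ (two_ne_zero), Real.exp_log hlam0]
  have hl' : Real.exp (-((2 * Real.log lam) / 2)) = mu := by
    rw [Real.exp_neg, hl]
    field_simp
    linarith
  have hlpos : 0 < 2 * Real.log lam := by
    have := Real.log_pos h1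
    linarith
  have hdet := G_det g
  rw [tr] at hsum
  by_cases hq : g 0 1 = 0
  · by_cases hr : g 1 0 = 0
    · rw [hq, hr] at hdet
      have h3 : (g 0 0 - lam) * (g 0 0 - mu) = 0 := by
        linear_combination (-(g 0 0)) * hsum + hprod - hdet
      rcases mul_eq_zero.mp h3 with h4 | h4
      · refine ⟨1, 2 * Real.log lam, hlpos, ?_⟩
        rw [mul_one, one_mul]
        apply G_ext
        · rw [geo_00, hl]; linarith
        · rw [geo_01, hq]
        · rw [geo_10, hr]
        · rw [geo_11, hl']; linarith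
      · refine ⟨mk 0 (-1) 1 0 (by norm_num), 2 * Real.log lam, hlpos, ?_⟩
        apply G_ext
        · rw [mul_00, mul_00, geo_00, geo_10]; simp [hq]
        · rw [mul_01, mul_01, geo_01, geo_11, hl']; simp; linarith
        · rw [mul_10, mul_10, geo_00, geo_10, hl]; simp; linarith
        · rw [mul_11, mul_11, geo_01, geo_11]; simp [hr]
    · refine ⟨mk (lam - g 1 1) ((mu - g 1 1) / (g 1 0 * (lam - mu))) (g 1 0) (1 / (lam - mu)) ?_,
        2 * Real.log lam, hlpos, ?_⟩
      · have : lam - mu ≠ 0 := by intro hc; apply hne; linarith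
        field_simp
        ring
      · have h5 : lam - mu ≠ 0 := by intro hc; apply hne; linarith
        apply G_ext
        · rw [mul_00, mul_00, geo_00, geo_10, hl]; simp only [mk_00, mk_01, mk_10, mk_11]
          nlinarith
        · rw [mul_01, mul_01, geo_01, geo_11, hl']; simp only [mk_00, mk_01, mk_10, mk_11]
          field_simp
          rw [hq]
          linear_combination (-mu) * hsum + hprod - hdet - (g 1 0) * hq
        · rw [mul_10, mul_10, geo_00, geo_10, hl]; simp only [mk_00, mk_01, mk_10, mk_11]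
          ring
        · rw [mul_11, mul_11, geo_01, geo_11, hl']; simp only [mk_00, mk_01, mk_10, mk_11]
          field_simp
          ring
  · refine ⟨mk (g 0 1) (1 / (mu - lam)) (lam - g 0 0) ((mu - g 0 0) / (g 0 1 * (mu - lam))) ?_,
        2 * Real.log lam, hlpos, ?_⟩
    · field_simp
      ring
    · apply G_ext
      · rw [mul_00, mul_00, geo_00, geo_10, hl]; simp only [mk_00, mk_01, mk_10, mk_11]
        ring
      · rw [mul_01, mul_01, geo_01, geo_11, hl']; simp only [mk_00, mk_01, mk_10, mk_11]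
        field_simp
        ring
      · rw [mul_10, mul_10, geo_00, geo_10, hl]; simp only [mk_00, mk_01, mk_10, mk_11]
        nlinarith
      · rw [mul_11, mul_11, geo_01, geo_11, hl']; simp only [mk_00, mk_01, mk_10, mk_11]
        field_simp
        nlinarith

lemma exists_diag {g : G} (h : 2 < |tr g|) :
    ∃ (x : G) (l : ℝ), 0 < l ∧ (g * x = x * geo l ∨ g * x = -(x * geo l)) := by
  rcases lt_abs.mp h with h | h
  · obtain ⟨x, l, hl, hx⟩ := exists_diag_of_two_lt h
    exact ⟨x, l, hl, Or.inl hx⟩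
  · have h' : 2 < tr (-g) := by rw [tr_neg]; exact h
    obtain ⟨x, l, hl, hx⟩ := exists_diag_of_two_lt h'
    refine ⟨x, l, hl, Or.inr ?_⟩
    rw [← hx, neg_mul, neg_neg]

end Pool.Agent.SimpleAnosov
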