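import Pool.Agent.H76.SA.Fuchs2

open Matrix Filter Topology
open scoped MatrixGroups

set_option linter.unusedSimpArgs false

namespace Pool.Agent.SimpleAnosov

variable {Γ : Subgroup G}

lemma IsSurfaceGroup.finite_bdd (hΓ : IsSurfaceGroup Γ) (B : ℝ) :
    {g : G | g ∈ Γ ∧ ∀ i j, |g i j| ≤ B}.Finite := by
  have := finite_inter hΓ.discrete (isCompact_bdd B)
  exact this.subset (fun g hg => ⟨hg.1, hg.2⟩)

lemma IsSurfaceGroup.exists_cocompact_bdd (hΓ : IsSurfaceGroup Γ) :
    ∃ B : ℝ, 0 < B ∧ ∀ x : G, ∃ g ∈ Γ, ∃ k : G, (∀ i j, |k i j| ≤ B) ∧ x = g * k := by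
  obtain ⟨K, hK, hcov⟩ := hΓ.cocompact
  obtain ⟨B, hB, hKB⟩ := IsCompact.exists_bdd hK
  refine ⟨B, hB, fun x => ?_⟩
  obtain ⟨g, hg, k, hk, hx⟩ := hcov x
  exact ⟨g, hg, k, hKB k hk, hx⟩

lemma inv_bdd {k : G} {B : ℝ} (h : ∀ i j, |k i j| ≤ B) : ∀ i j, |k⁻¹ i j| ≤ B := by
  intro i j
  fin_cases i <;> fin_cases j
  · change |k⁻¹ 0 0| ≤ B; rw [inv_00]; exact h 1 1
  · change |k⁻¹ 0 1| ≤ B; rw [inv_01, abs_neg]; exact h 0 1
  · change |k⁻¹ 1 0| ≤ B; rw [inv_10, abs_neg]; exact h 1 0
  · change |k⁻¹ 1 1| ≤ B; rw [inv_11]; exact h 0 0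

lemma neg_one_ne_one : (-1 : G) ≠ 1 := by
  intro h
  have := congrArg (fun g : G => g 0 0) h
  simp only [neg_00, one_00] at this
  norm_num at this

lemma IsSurfaceGroup.neg_one_notMem (hΓ : IsSurfaceGroup Γ) : (-1 : G) ∉ Γ := by
  intro h
  have := hΓ.torsionFree _ h 2 (by norm_num) (by simp)
  exact neg_one_ne_one this

/-- An element of `Γ` all of whose traces along a sequence of conjugates approach `c = ± 1`
equals `c`. -/
lemma IsSurfaceGroup.eq_of_small (hΓ : IsSurfaceGroup Γ) {g : G} (hg : g ∈ Γ) (c : G)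
    (hc : ∀ y : G, y * c = c * y)
    (h : ∀ ε : ℝ, 0 < ε → ∃ x : G, ∀ i j, |(x⁻¹ * g * x) i j - c i j| ≤ ε) : g = c := by
  obtain ⟨B, hB, hcov⟩ := hΓ.exists_cocompact_bdd
  set C : ℝ := 4 * B ^ 2 with hC
  have hCpos : 0 < C := by positivity
  set M : ℝ := ∑ i, ∑ j, |c i j| with hM
  have hcM : ∀ i j, |c i j| ≤ M := by
    intro i j
    have h2 : |c i j| ≤ ∑ j, |c i j| :=
      Finset.single_le_sum (f := fun j => |c i j|) (fun _ _ => abs_nonneg _) (Finset.mem_univ j)
    have h3 : ∑ j, |c i j| ≤ ∑ i, ∑ j, |c i j| :=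
      Finset.single_le_sum (f := fun i => ∑ j, |c i j|)
        (fun _ _ => Finset.sum_nonneg (fun _ _ => abs_nonneg _)) (Finset.mem_univ i)
    linarith
  have hfin := hΓ.finite_bdd (C + M)
  -- a positive lower bound for the distance to `c`
  obtain ⟨δ, hδ, hδ'⟩ : ∃ δ : ℝ, 0 < δ ∧ ∀ f ∈ {g : G | g ∈ Γ ∧ ∀ i j, |g i j| ≤ C + M},
      (∀ i j, |f i j - c i j| < δ) → f = c := by
    have key : ∀ f : G, f ≠ c → 0 < ∑ i, ∑ j, |f i j - c i j| := by
      intro f hf
      by_contra hcon
      push Not at hcon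
      apply hf
      have h0 : ∀ i j, f i j = c i j := by
        intro i j
        have h2 : |f i j - c i j| ≤ ∑ j, |f i j - c i j| :=
          Finset.single_le_sum (f := fun j => |f i j - c i j|) (fun _ _ => abs_nonneg _)
            (Finset.mem_univ j)
        have h3 : ∑ j, |f i j - c i j| ≤ ∑ i, ∑ j, |f i j - c i j| :=
          Finset.single_le_sum (f := fun i => ∑ j, |f i j - c i j|)
            (fun _ _ => Finset.sum_nonneg (fun _ _ => abs_nonneg _)) (Finset.mem_univ i)
        have h4 : |f i j - c i j| = 0 := le_antisymm (by linarith) (abs_nonneg _)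
        linarith [abs_eq_zero.mp h4]
      ext i j
      exact h0 i j
    set S := hfin.toFinset.filter (fun f => f ≠ c) with hS
    by_cases hne : S.Nonempty
    · obtain ⟨f0, hf0, hmin⟩ := S.exists_min_image (fun f => ∑ i, ∑ j, |f i j - c i j|) hne
      have hf0' : f0 ≠ c := (Finset.mem_filter.mp hf0).2
      have hpos := key f0 hf0'
      refine ⟨(∑ i, ∑ j, |f0 i j - c i j|) / 4, by linarith, fun f hf hlt => ?_⟩
      by_contra hfc
      have hfS : f ∈ S := by
        rw [hS, Finset.mem_filter]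
        exact ⟨hfin.mem_toFinset.mpr hf, hfc⟩
      have h1 := hmin f hfS
      have h2 : ∑ i, ∑ j, |f i j - c i j| < ∑ i, ∑ j, |f0 i j - c i j| := by
        simp only [Fin.sum_univ_two] at *
        have e1 := hlt 0 0
        have e2 := hlt 0 1
        have e3 := hlt 1 0
        have e4 := hlt 1 1
        linarith
      linarith
    · refine ⟨1, one_pos, fun f hf _ => ?_⟩
      by_contra hfc
      apply hne
      exact ⟨f, Finset.mem_filter.mpr ⟨hfin.mem_toFinset.mpr hf, hfc⟩⟩
  obtain ⟨x, hx⟩ := h (min 1 (δ / (2 * C))) (by positivity)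
  obtain ⟨γ, hγ, k, hk, hxk⟩ := hcov x
  set z := x⁻¹ * g * x with hz
  set f := γ⁻¹ * g * γ with hf
  have hfz : f = k * z * k⁻¹ := by
    rw [hf, hz, hxk]; group
  have hfΓ : f ∈ Γ := Γ.mul_mem (Γ.mul_mem (Γ.inv_mem hγ) hg) hγ
  have hk' := inv_bdd hk
  have hfc : ∀ i j, |f i j - c i j| ≤ C * min 1 (δ / (2 * C)) := by
    set ε := min 1 (δ / (2 * C))
    have hε : 0 < ε := by positivity
    have hcc : c = k * c * k⁻¹ := by rw [hc k, mul_assoc, mul_inv_cancel, mul_one]
    intro i j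
    have e1 : f i j - c i j = ∑ p, ∑ q, k i p * (z p q - c p q) * k⁻¹ q j := by
      have e2 : f i j = ∑ p, ∑ q, k i p * z p q * k⁻¹ q j := by
        rw [hfz]
        simp only [Matrix.SpecialLinearGroup.coe_mul, Matrix.mul_apply, Fin.sum_univ_two]
        ring
      have e3 : c i j = ∑ p, ∑ q, k i p * c p q * k⁻¹ q j := by
        conv_lhs => rw [hcc]
        simp only [Matrix.SpecialLinearGroup.coe_mul, Matrix.mul_apply, Fin.sum_univ_two]
        ring
      rw [e2, e3]
      simp only [Fin.sum_univ_two]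
      ring
    rw [e1]
    have bound : ∀ p q, |k i p * (z p q - c p q) * k⁻¹ q j| ≤ B * ε * B := by
      intro p q
      rw [abs_mul, abs_mul]
      gcongr
      · exact hk i p
      · exact hx p q
      · exact hk' q j
    calc |∑ p, ∑ q, k i p * (z p q - c p q) * k⁻¹ q j|
        ≤ ∑ p, |∑ q, k i p * (z p q - c p q) * k⁻¹ q j| := Finset.abs_sum_le_sum_abs _ _
      _ ≤ ∑ p, ∑ q, |k i p * (z p q - c p q) * k⁻¹ q j| :=
          Finset.sum_le_sum (fun p _ => Finset.abs_sum_le_sum_abs _ _)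
      _ ≤ ∑ p : Fin 2, ∑ q : Fin 2, B * ε * B :=
          Finset.sum_le_sum (fun p _ => Finset.sum_le_sum (fun q _ => bound p q))
      _ = C * ε := by simp only [Fin.sum_univ_two, hC]; ring
  have hmin1 : min 1 (δ / (2 * C)) ≤ 1 := min_le_left _ _
  have hmin2 : min 1 (δ / (2 * C)) ≤ δ / (2 * C) := min_le_right _ _
  have hf_eq : f = c := by
    apply hδ' f
    · refine ⟨hfΓ, fun i j => ?_⟩
      have h1 := hfc i j
      have h2 : |f i j| ≤ |f i j - c i j| + |c i j| := by
        have := abs_add_le (f i j - c i j) (c i j)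
        simpa using this
      have h3 : C * min 1 (δ / (2 * C)) ≤ C := by nlinarith
      have := hcM i j
      linarith
    · intro i j
      refine lt_of_le_of_lt (hfc i j) ?_
      calc C * min 1 (δ / (2 * C)) ≤ C * (δ / (2 * C)) := by gcongr
        _ = δ / 2 := by field_simp
        _ < δ := by linarith
  have : g = γ * f * γ⁻¹ := by rw [hf]; group
  rw [this, hf_eq, hc γ, mul_assoc, mul_inv_cancel, mul_one]

lemma pow_formula (g : G) (θ : ℝ) (hθ : tr g = 2 * Real.cos θ) (n : ℕ) (i j : Fin 2) :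
    Real.sin θ * (g ^ n) i j = Real.sin (n * θ) * g i j - Real.sin (n * θ - θ) * (1 : G) i j := by
  have ch : ∀ i j, (g * g) i j = 2 * Real.cos θ * g i j - (1 : G) i j := by
    intro i j
    have hd := G_det g
    rw [← hθ, tr]
    fin_cases i <;> fin_cases j
    · change (g * g) 0 0 = (g 0 0 + g 1 1) * g 0 0 - (1 : G) 0 0
      rw [mul_00, one_00]; linear_combination -hd
    · change (g * g) 0 1 = (g 0 0 + g 1 1) * g 0 1 - (1 : G) 0 1
      rw [mul_01, one_01]; ring
    · change (g * g) 1 0 = (g 0 0 + g 1 1) * g 1 0 - (1 : G) 1 0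
      rw [mul_10, one_10]; ring
    · change (g * g) 1 1 = (g 0 0 + g 1 1) * g 1 1 - (1 : G) 1 1
      rw [mul_11, one_11]; linear_combination -hd
  induction n generalizing i j with
  | zero => simp
  | succ n ih =>
    have e : (g ^ (n + 1)) i j = ∑ p, (g ^ n) i p * g p j := by
      rw [pow_succ]
      simp [Matrix.mul_apply]
    have e2 : (g * g) i j = ∑ p, g i p * g p j := by
      simp [Matrix.mul_apply]
    have e3 : ∑ p, (1 : G) i p * g p j = g i j := by
      have : ((1 : G) * g) i j = ∑ p, (1 : G) i p * g p j := by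
        simp only [Matrix.SpecialLinearGroup.coe_mul, Matrix.mul_apply]
      rw [← this, one_mul]
    have step : Real.sin θ * (g ^ (n + 1)) i j =
        Real.sin (n * θ) * (g * g) i j - Real.sin (n * θ - θ) * g i j := by
      rw [e, e2, Finset.mul_sum]
      have : ∀ p, Real.sin θ * ((g ^ n) i p * g p j) =
          Real.sin (n * θ) * (g i p * g p j) - Real.sin (n * θ - θ) * ((1 : G) i p * g p j) := by
        intro p
        rw [← mul_assoc, ih i p]; ring
      rw [Finset.sum_congr rfl (fun p _ => this p), Finset.sum_sub_distrib, ← Finset.mul_sum,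
        ← Finset.mul_sum, e3]
    rw [step, ch]
    have h1 : ((n + 1 : ℕ) : ℝ) * θ = n * θ + θ := by push_cast; ring
    rw [h1]
    have h2 : (n : ℝ) * θ + θ - θ = n * θ := by ring
    rw [h2, Real.sin_add, Real.sin_sub]
    ring

lemma IsSurfaceGroup.not_elliptic (hΓ : IsSurfaceGroup Γ) {g : G} (hg : g ∈ Γ) :
    ¬ |tr g| < 2 := by
  intro h
  obtain ⟨h1, h2⟩ := abs_lt.mp h
  set θ := Real.arccos (tr g / 2) with hθ
  have hcos : tr g = 2 * Real.cos θ := by
    rw [hθ, Real.cos_arccos (by linarith) (by linarith)]; ring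
  have hsin : 0 < Real.sin θ := by
    rw [hθ, Real.sin_arccos]
    apply Real.sqrt_pos.mpr
    nlinarith
  set M : ℝ := ∑ i, ∑ j, |g i j| with hM
  have hcM : ∀ i j, |g i j| ≤ M := by
    intro i j
    have h2 : |g i j| ≤ ∑ j, |g i j| :=
      Finset.single_le_sum (f := fun j => |g i j|) (fun _ _ => abs_nonneg _) (Finset.mem_univ j)
    have h3 : ∑ j, |g i j| ≤ ∑ i, ∑ j, |g i j| :=
      Finset.single_le_sum (f := fun i => ∑ j, |g i j|)
        (fun _ _ => Finset.sum_nonneg (fun _ _ => abs_nonneg _)) (Finset.mem_univ i)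
    linarith
  have hbd : ∀ n : ℕ, ∀ i j, |(g ^ n) i j| ≤ (M + 1) / Real.sin θ := by
    intro n i j
    rw [le_div_iff₀ hsin]
    have h3 := pow_formula g θ hcos n i j
    have h4 : |(g ^ n) i j| * Real.sin θ = |Real.sin θ * (g ^ n) i j| := by
      rw [abs_mul, abs_of_pos hsin, mul_comm]
    rw [h4, h3]
    have h5 : |(1 : G) i j| ≤ 1 := by
      fin_cases i <;> fin_cases j
      · change |(1 : G) 0 0| ≤ 1; rw [one_00]; simp
      · change |(1 : G) 0 1| ≤ 1; rw [one_01]; simp
      · change |(1 : G) 1 0| ≤ 1; rw [one_10]; simp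
      · change |(1 : G) 1 1| ≤ 1; rw [one_11]; simp
    calc |Real.sin (n * θ) * g i j - Real.sin (n * θ - θ) * (1 : G) i j|
        ≤ |Real.sin (n * θ) * g i j| + |Real.sin (n * θ - θ) * (1 : G) i j| := abs_sub _ _
      _ ≤ 1 * M + 1 * 1 := by
          rw [abs_mul, abs_mul]
          gcongr
          · exact Real.abs_sin_le_one _
          · exact hcM i j
          · exact Real.abs_sin_le_one _
      _ = M + 1 := by ring
  have hfin := hΓ.finite_bdd ((M + 1) / Real.sin θ)
  have hmaps : Set.MapsTo (fun n : ℕ => g ^ n) Set.univ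
      {h : G | h ∈ Γ ∧ ∀ i j, |h i j| ≤ (M + 1) / Real.sin θ} :=
    fun n _ => ⟨Γ.pow_mem hg n, hbd n⟩
  obtain ⟨m, -, n, -, hmn, heq⟩ := Set.infinite_univ.exists_ne_map_eq_of_mapsTo hmaps hfin
  wlog hlt : m < n generalizing m n
  · exact this n m hmn.symm heq.symm (lt_of_le_of_ne (not_lt.mp hlt) hmn.symm)
  have h6 : g ^ (n - m) = 1 := by
    have : g ^ n = g ^ m * g ^ (n - m) := by rw [← pow_add]; congr 1; omega
    have heq' : g ^ m = g ^ n := heq
    rw [this] at heq'
    exact (mul_eq_left.mp heq'.symm)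
  have h7 := hΓ.torsionFree g hg (n - m) (by omega) h6
  rw [h7, tr_one] at h
  norm_num at h

lemma exists_unipotent {g : G} (h : tr g = 2) : ∃ (y : G) (u : ℝ),
    g = y * mk 1 u 0 1 (by norm_num) * y⁻¹ := by
  have hd := G_det g
  rw [tr] at h
  by_cases hr : g 1 0 = 0
  · refine ⟨1, g 0 1, ?_⟩
    rw [hr] at hd
    have h1 : (g 0 0 - 1) ^ 2 = 0 := by
      linear_combination g 0 0 * h - hd
    have h2 : g 0 0 = 1 := by
      have := pow_eq_zero_iff (two_ne_zero) |>.mp h1
      linarith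
    have h3 : g 1 1 = 1 := by linarith
    rw [one_mul, inv_one, mul_one]
    apply G_ext
    · simpa using h2
    · simp
    · simpa using hr
    · simpa using h3
  · refine ⟨mk (g 1 1 - 1) (1 / g 1 0) (-(g 1 0)) 0 (by field_simp; ring), -(1 / g 1 0), ?_⟩
    rw [eq_mul_inv_iff_mul_eq]
    apply G_ext
    · rw [mul_00, mul_00]; simp only [mk_00, mk_01, mk_10, mk_11]
      linear_combination hd - h
    · rw [mul_01, mul_01]; simp only [mk_00, mk_01, mk_10, mk_11]
      field_simp
      linear_combination h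
    · rw [mul_10, mul_10]; simp only [mk_00, mk_01, mk_10, mk_11]
      ring
    · rw [mul_11, mul_11]; simp only [mk_00, mk_01, mk_10, mk_11]
      field_simp
      ring

end Pool.Agent.SimpleAnosov
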