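import Pool.Agent.H76.SA.Fuchs3

open Matrix Filter Topology
open scoped MatrixGroups

set_option linter.unusedSimpArgs false

namespace Pool.Agent.SimpleAnosov

variable {Γ : Subgroup G}

lemma mul_ij (g h : G) (i j : Fin 2) : (g * h) i j = g i 0 * h 0 j + g i 1 * h 1 j := by
  simp [Matrix.mul_apply, Fin.sum_univ_two]

lemma mul_geo_0 (g : G) (l : ℝ) (i : Fin 2) : (g * geo l) i 0 = g i 0 * Real.exp (l / 2) := by
  rw [mul_ij]; simp

lemma mul_geo_1 (g : G) (l : ℝ) (i : Fin 2) : (g * geo l) i 1 = g i 1 * Real.exp (-(l / 2)) := by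
  rw [mul_ij]; simp

lemma exists_conj_small {g : G} (h : tr g = 2) (ε : ℝ) (hε : 0 < ε) :
    ∃ x : G, ∀ i j, |(x⁻¹ * g * x) i j - (1 : G) i j| ≤ ε := by
  obtain ⟨y, u, hy⟩ := exists_unipotent h
  obtain ⟨s, hs⟩ : ∃ s : ℝ, Real.exp (-s) * |u| ≤ ε := by
    refine ⟨Real.log ((|u| + 1) / ε), ?_⟩
    have hpos : 0 < (|u| + 1) / ε := by positivity
    rw [Real.exp_neg, Real.exp_log hpos, inv_div]
    rw [div_mul_eq_mul_div, div_le_iff₀ (by positivity)]
    nlinarith [abs_nonneg u]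
  refine ⟨y * geo s, ?_⟩
  have e : (y * geo s)⁻¹ * g * (y * geo s) = mk 1 (Real.exp (-s) * u) 0 1 (by norm_num) := by
    rw [hy]
    have : (y * geo s)⁻¹ * (y * mk 1 u 0 1 (by norm_num) * y⁻¹) * (y * geo s) =
      (geo s)⁻¹ * mk 1 u 0 1 (by norm_num) * geo s := by group
    rw [this, mul_assoc, inv_mul_eq_iff_eq_mul]
    apply G_ext
    · rw [mul_00, mul_00]; simp
    · rw [mul_01, mul_01]; simp
      rw [← mul_assoc, ← Real.exp_add, mul_comm]
      congr 2; ring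
    · rw [mul_10, mul_10]; simp
    · rw [mul_11, mul_11]; simp
  intro i j
  rw [e]
  have h1 : |Real.exp (-s) * u| ≤ ε := by
    rw [abs_mul, abs_of_pos (Real.exp_pos _)]; exact hs
  fin_cases i <;> fin_cases j
  · change |(mk 1 (Real.exp (-s) * u) 0 1 _ : G) 0 0 - (1 : G) 0 0| ≤ ε
    rw [mk_00, one_00]; simpa using hε.le
  · change |(mk 1 (Real.exp (-s) * u) 0 1 _ : G) 0 1 - (1 : G) 0 1| ≤ ε
    rw [mk_01, one_01]; simpa using h1
  · change |(mk 1 (Real.exp (-s) * u) 0 1 _ : G) 1 0 - (1 : G) 1 0| ≤ ε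
    rw [mk_10, one_10]; simpa using hε.le
  · change |(mk 1 (Real.exp (-s) * u) 0 1 _ : G) 1 1 - (1 : G) 1 1| ≤ ε
    rw [mk_11, one_11]; simpa using hε.le

lemma IsSurfaceGroup.two_lt (hΓ : IsSurfaceGroup Γ) {g : G} (hg : g ∈ Γ) (h1 : g ≠ 1) :
    2 < |tr g| := by
  have h2 := hΓ.not_elliptic hg
  push Not at h2
  rcases lt_or_eq_of_le h2 with h3 | h3
  · exact h3
  · exfalso
    rcases eq_or_eq_neg_of_abs_eq h3.symm with h4 | h4
    · exact h1 (hΓ.eq_of_small hg 1 (fun y => by simp) (fun ε hε => exists_conj_small h4 ε hε))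
    · have h5 : tr (-g) = 2 := by rw [tr_neg, h4]; norm_num
      have h6 : g = -1 := by
        refine hΓ.eq_of_small hg (-1) (fun y => by simp) (fun ε hε => ?_)
        obtain ⟨x, hx⟩ := exists_conj_small h5 ε hε
        refine ⟨x, fun i j => ?_⟩
        have h7 := hx i j
        have h8 : (x⁻¹ * -g * x) i j = - (x⁻¹ * g * x) i j := by
          rw [mul_neg, neg_mul]; rfl
        have h9 : ((-1 : G)) i j = - (1 : G) i j := rfl
        rw [h9]
        rw [h8] at h7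
        rw [← abs_neg]
        convert h7 using 2
        ring
      exact hΓ.neg_one_notMem (h6 ▸ hg)

/-- Every nontrivial element of `Γ` is hyperbolic. -/
lemma IsSurfaceGroup.exists_axis (hΓ : IsSurfaceGroup Γ) {g : G} (hg : g ∈ Γ) (h1 : g ≠ 1) :
    ∃ (x : G) (l : ℝ), 0 < l ∧ (g * x = x * geo l ∨ g * x = -(x * geo l)) :=
  exists_diag (hΓ.two_lt hg h1)

lemma eq_conj_of_axis {g x : G} {l : ℝ} (h : g * x = x * geo l ∨ g * x = -(x * geo l)) :
    g = x * geo l * x⁻¹ ∨ g = -(x * geo l * x⁻¹) := by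
  rcases h with h | h
  · left; rw [← h, mul_assoc, mul_inv_cancel, mul_one]
  · right; rw [← neg_mul, ← h, mul_assoc, mul_inv_cancel, mul_one]

lemma abs_tr_of_axis {g x : G} {l : ℝ} (h : g * x = x * geo l ∨ g * x = -(x * geo l)) :
    |tr g| = 2 * Real.cosh (l / 2) := by
  have hc : 0 < Real.cosh (l / 2) := Real.cosh_pos _
  rcases eq_conj_of_axis h with h | h
  · rw [h, tr_conj, tr_geo, abs_of_pos (by positivity)]
  · rw [h, tr_neg, tr_conj, tr_geo, abs_neg, abs_of_pos (by positivity)]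

/-- Finitely many elements of bounded trace up to conjugacy. -/
lemma IsSurfaceGroup.finite_conj (hΓ : IsSurfaceGroup Γ) (B : ℝ) :
    ∃ F : Set G, F.Finite ∧ F ⊆ Γ ∧ ∀ g ∈ Γ, |tr g| ≤ B → ∃ γ ∈ Γ, ∃ f ∈ F, g = γ * f * γ⁻¹ := by
  obtain ⟨D, hD, hcov⟩ := hΓ.exists_cocompact_bdd
  set M : ℝ := 2 * D ^ 2 * (B + 2) with hM
  refine ⟨{g : G | g ∈ Γ ∧ ∀ i j, |g i j| ≤ max 1 M}, hΓ.finite_bdd _, fun g hg => hg.1, ?_⟩
  intro g hg hB
  by_cases h1 : g = 1
  · refine ⟨1, Γ.one_mem, 1, ⟨Γ.one_mem, fun i j => ?_⟩, by simp [h1]⟩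
    refine le_trans ?_ (le_max_left _ _)
    fin_cases i <;> fin_cases j
    · change |(1 : G) 0 0| ≤ 1; rw [one_00]; simp
    · change |(1 : G) 0 1| ≤ 1; rw [one_01]; simp
    · change |(1 : G) 1 0| ≤ 1; rw [one_10]; simp
    · change |(1 : G) 1 1| ≤ 1; rw [one_11]; simp
  · obtain ⟨x, l, hl, hx⟩ := hΓ.exists_axis hg h1
    obtain ⟨γ, hγ, k, hk, hxk⟩ := hcov x
    have hk' := inv_bdd hk
    refine ⟨γ, hγ, γ⁻¹ * g * γ, ⟨Γ.mul_mem (Γ.mul_mem (Γ.inv_mem hγ) hg) hγ, ?_⟩, by group⟩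
    have htr := abs_tr_of_axis hx
    rw [htr] at hB
    have hexp1 : Real.exp (l / 2) ≤ B + 2 := by
      rw [Real.cosh_eq] at hB
      have := Real.exp_pos (-(l / 2))
      linarith
    have hexp2 : Real.exp (-(l / 2)) ≤ B + 2 := by
      rw [Real.cosh_eq] at hB
      have := Real.exp_pos (l / 2)
      linarith
    have e : γ⁻¹ * g * γ = k * geo l * k⁻¹ ∨ γ⁻¹ * g * γ = -(k * geo l * k⁻¹) := by
      rcases eq_conj_of_axis hx with h | h
      · left; rw [h, hxk]; group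
      · right; rw [h, hxk, mul_neg, neg_mul]; group
    have hent : ∀ i j, |(k * geo l * k⁻¹) i j| ≤ M := by
      intro i j
      have e1 : (k * geo l * k⁻¹) i j = k i 0 * Real.exp (l / 2) * k⁻¹ 0 j +
          k i 1 * Real.exp (-(l / 2)) * k⁻¹ 1 j := by
        rw [mul_ij, mul_geo_0, mul_geo_1]
      rw [e1]
      have hB2 : 0 ≤ B + 2 := (Real.exp_pos _).le.trans hexp1
      have b1 : |k i 0 * Real.exp (l / 2) * k⁻¹ 0 j| ≤ D * (B + 2) * D := by
        rw [abs_mul, abs_mul, abs_of_pos (Real.exp_pos _)]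
        exact mul_le_mul (mul_le_mul (hk i 0) hexp1 (Real.exp_pos _).le hD.le) (hk' 0 j)
          (abs_nonneg _) (mul_nonneg hD.le hB2)
      have b2 : |k i 1 * Real.exp (-(l / 2)) * k⁻¹ 1 j| ≤ D * (B + 2) * D := by
        rw [abs_mul, abs_mul, abs_of_pos (Real.exp_pos _)]
        exact mul_le_mul (mul_le_mul (hk i 1) hexp2 (Real.exp_pos _).le hD.le) (hk' 1 j)
          (abs_nonneg _) (mul_nonneg hD.le hB2)
      calc _ ≤ _ := abs_add_le _ _
        _ ≤ D * (B + 2) * D + D * (B + 2) * D := add_le_add b1 b2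
        _ = M := by rw [hM]; ring
    intro i j
    refine le_trans ?_ (le_max_right _ _)
    rcases e with e | e
    · rw [e]; exact hent i j
    · rw [e]
      have : (-(k * geo l * k⁻¹)) i j = -((k * geo l * k⁻¹) i j) := rfl
      rw [this, abs_neg]; exact hent i j

/-- Finitely many traces of bounded size. -/
lemma IsSurfaceGroup.finite_traces (hΓ : IsSurfaceGroup Γ) (B : ℝ) :
    {t : ℝ | ∃ g ∈ Γ, |tr g| = t ∧ t ≤ B}.Finite := by
  obtain ⟨F, hF, -, hcov⟩ := hΓ.finite_conj B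
  refine (hF.image (fun g => |tr g|)).subset ?_
  rintro t ⟨g, hg, rfl, ht⟩
  obtain ⟨γ, -, f, hf, rfl⟩ := hcov g hg ht
  exact ⟨f, hf, by simp only [tr_conj]⟩

/-- Induction on the absolute value of the trace. -/
lemma IsSurfaceGroup.trace_induction (hΓ : IsSurfaceGroup Γ) (P : G → Prop)
    (h : ∀ g ∈ Γ, (∀ h ∈ Γ, |tr h| < |tr g| → P h) → P g) : ∀ g ∈ Γ, P g := by
  by_contra hcon
  push Not at hcon
  obtain ⟨g0, hg0, hPg0⟩ := hcon
  set S : Set ℝ := {t : ℝ | ∃ g ∈ Γ, |tr g| = t ∧ t ≤ |tr g0| ∧ ¬ P g} with hS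
  have hSfin : S.Finite := (hΓ.finite_traces |tr g0|).subset
    (by rintro t ⟨g, hg, h1, h2, -⟩; exact ⟨g, hg, h1, h2⟩)
  have hSne : S.Nonempty := ⟨|tr g0|, g0, hg0, rfl, le_refl _, hPg0⟩
  obtain ⟨t, ⟨g, hg, rfl, hle, hPg⟩, hmin⟩ := Set.exists_min_image S id hSfin hSne
  apply hPg
  apply h g hg
  intro k hk hlt
  by_contra hPk
  have := hmin |tr k| ⟨k, hk, rfl, by linarith, hPk⟩
  simp only [id] at this
  linarith

end Pool.Agent.SimpleAnosov
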