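import Pool.Agent.H76.SA.Fuchs4

open Matrix Filter Topology
open scoped MatrixGroups

set_option linter.unusedSimpArgs false

namespace Pool.Agent.SimpleAnosov

variable {Γ : Subgroup G}

/-- Rotation matrices, i.e. the stabiliser of `i`. -/
def IsRot (k : G) : Prop := k 0 0 = k 1 1 ∧ k 0 1 = - k 1 0

lemma smul_I_eq_I_iff (g : G) : g • UpperHalfPlane.I = UpperHalfPlane.I ↔ IsRot g := by
  rw [← UpperHalfPlane.coe_inj, UpperHalfPlane.coe_specialLinearGroup_apply]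
  have hden : ((g 1 0 : ℝ) : ℂ) * Complex.I + ((g 1 1 : ℝ) : ℂ) ≠ 0 := by
    intro h
    have h1 := congrArg Complex.re h
    have h2 := congrArg Complex.im h
    simp at h1 h2
    have := G_det g
    rw [h1, h2] at this
    simp at this
  change (((g 0 0 : ℝ) : ℂ) * Complex.I + ((g 0 1 : ℝ) : ℂ)) /
    (((g 1 0 : ℝ) : ℂ) * Complex.I + ((g 1 1 : ℝ) : ℂ)) = Complex.I ↔ _
  rw [div_eq_iff hden]
  constructor
  · intro h
    have h1 := congrArg Complex.re h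
    have h2 := congrArg Complex.im h
    simp at h1 h2
    exact ⟨h2, h1⟩
  · rintro ⟨h1, h2⟩
    apply Complex.ext
    · simp [h2]
    · simp [h1]

lemma smul_I_eq_iff (g h : G) :
    g • UpperHalfPlane.I = h • UpperHalfPlane.I ↔ IsRot (h⁻¹ * g) := by
  rw [← smul_I_eq_I_iff, mul_smul, inv_smul_eq_iff]

lemma IsRot.inv {k : G} (h : IsRot k) : IsRot k⁻¹ := by
  rw [← smul_I_eq_I_iff] at h ⊢
  rw [inv_smul_eq_iff]; exact h.symm

/-- The core algebraic form of self-intersection. -/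
lemma smul_axis_iff (x h : G) (s t : ℝ) :
    h • ((x * geo s) • UpperHalfPlane.I) = (x * geo t) • UpperHalfPlane.I ↔
      IsRot ((x * geo t)⁻¹ * h * (x * geo s)) := by
  rw [← mul_smul, smul_I_eq_iff, mul_assoc]

/-- `γ ∈ Γ` represents a (multiple of a) simple closed geodesic. -/
def IsSimpleElt (Γ : Subgroup SL(2, ℝ)) (γ : Γ) : Prop :=
  γ ≠ 1 ∧ ∃ (h : SL(2, ℝ)) (l : ℝ), 0 < l ∧
    ((γ : SL(2, ℝ)) * h = h * geo l ∨ (γ : SL(2, ℝ)) * h = -(h * geo l)) ∧ IsSimpleClosed Γ h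

lemma tr_geo_mul (u : ℝ) (k : G) (hk : IsRot k) : tr (geo u * k) = 2 * Real.cosh (u / 2) * k 0 0 := by
  rw [tr, mul_00, mul_11, ← hk.1, Real.cosh_eq]; simp; ring

lemma IsRot.sq {k : G} (h : IsRot k) : k 0 0 ^ 2 + k 0 1 ^ 2 = 1 := by
  have := G_det k
  rw [← h.1] at this
  have h2 := h.2
  linear_combination this + k 0 1 * h2

/-- Resolution of a self intersection. -/
lemma IsSurfaceGroup.resolve (hΓ : IsSurfaceGroup Γ) {g x h : G} {l s t : ℝ} (hg : g ∈ Γ)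
    (hx : g * x = x * geo l ∨ g * x = -(x * geo l)) (hh : h ∈ Γ)
    (hst : s < t) (htl : t - s < l)
    (hrot : IsRot ((x * geo t)⁻¹ * h * (x * geo s))) :
    ∃ α ∈ Γ, ∃ β ∈ Γ, g = α * β ∧ |tr α| < |tr g| ∧ |tr β| < |tr g| ∧
      |tr (α * β⁻¹)| < |tr g| := by
  set k := (x * geo t)⁻¹ * h * (x * geo s) with hk
  have hh_eq : h = x * geo t * k * (x * geo s)⁻¹ := by rw [hk]; group
  set c := k 0 0 with hc
  have hc1 : c ^ 2 ≤ 1 := by
    have := hrot.sq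
    nlinarith [sq_nonneg (k 0 1)]
  set u := t - s with hu
  have hu0 : 0 < u := by linarith
  have hul : u < l := by linarith
  have htrh : tr h = 2 * Real.cosh (u / 2) * c := by
    have e : h = x * (geo t * k * (geo s)⁻¹) * x⁻¹ := by rw [hh_eq]; group
    rw [e, tr_conj, tr_mul_comm, ← geo_neg, ← mul_assoc, ← geo_add]
    have : -s + t = u := by rw [hu]; ring
    rw [this, tr_geo_mul u k hrot]
  have hc0 : c ≠ 0 := by
    intro h0
    rw [h0, mul_zero] at htrh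
    have h1 : h = 1 := by
      by_contra hne
      have := hΓ.two_lt hh hne
      rw [htrh] at this
      norm_num at this
    rw [h1, tr_one] at htrh
    norm_num at htrh
  have hcpos : 0 < c ^ 2 := by positivity
  have habsc : |c| ≤ 1 := by
    rw [← sq_abs] at hc1
    nlinarith [abs_nonneg c]
  -- the element β
  have htrβ : ∃ ε : ℝ, (ε = 1 ∨ ε = -1) ∧ tr (h⁻¹ * g) = ε * (2 * Real.cosh ((l - u) / 2) * c) ∧
      tr g = ε * (2 * Real.cosh (l / 2)) := by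
    have base : tr (h⁻¹ * (x * geo l * x⁻¹)) = 2 * Real.cosh ((l - u) / 2) * c := by
      have e : h⁻¹ * (x * geo l * x⁻¹) = x * (geo s * k⁻¹ * ((geo t)⁻¹ * geo l)) * x⁻¹ := by
        rw [hh_eq]; group
      rw [e, tr_conj, tr_mul_comm, ← geo_neg, ← geo_add, ← mul_assoc, ← geo_add]
      have e2 : -t + l + s = l - u := by rw [hu]; ring
      rw [e2, tr_geo_mul _ _ hrot.inv, inv_00, ← hrot.1]
    rcases eq_conj_of_axis hx with h1 | h1
    · refine ⟨1, Or.inl rfl, ?_, ?_⟩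
      · rw [h1, base, one_mul]
      · rw [h1, tr_conj, tr_geo, one_mul]
    · refine ⟨-1, Or.inr rfl, ?_, ?_⟩
      · rw [h1, mul_neg, tr_neg, base]; ring
      · rw [h1, tr_neg, tr_conj, tr_geo]; ring
  obtain ⟨ε, hε, htrβ, htrg⟩ := htrβ
  have hεabs : |ε| = 1 := by rcases hε with h1 | h1 <;> rw [h1] <;> simp
  have hεsq : ε * ε = 1 := by rcases hε with h1 | h1 <;> rw [h1] <;> norm_num
  -- hyperbolic inequalities
  have hCu : 1 < Real.cosh (u / 2) := Real.one_lt_cosh.mpr (by linarith)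
  have hCv : 1 < Real.cosh ((l - u) / 2) := Real.one_lt_cosh.mpr (by linarith)
  have hSu : 0 < Real.sinh (u / 2) := Real.sinh_pos_iff.mpr (by linarith)
  have hSv : 0 < Real.sinh ((l - u) / 2) := Real.sinh_pos_iff.mpr (by linarith)
  have hCl : Real.cosh (l / 2) = Real.cosh (u / 2) * Real.cosh ((l - u) / 2) +
      Real.sinh (u / 2) * Real.sinh ((l - u) / 2) := by
    rw [← Real.cosh_add]; congr 1; ring
  set Cu := Real.cosh (u / 2)
  set Cv := Real.cosh ((l - u) / 2)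
  set Su := Real.sinh (u / 2)
  set Sv := Real.sinh ((l - u) / 2)
  set Cl := Real.cosh (l / 2)
  have hSS : 0 < Su * Sv := mul_pos hSu hSv
  have hClpos : 0 < Cl := by rw [hCl]; nlinarith
  have htrg' : |tr g| = 2 * Cl := by
    rw [htrg, abs_mul, hεabs, one_mul, abs_of_pos (by linarith)]
  refine ⟨h, hh, h⁻¹ * g, Γ.mul_mem (Γ.inv_mem hh) hg, by group, ?_, ?_, ?_⟩
  · rw [htrg', htrh, abs_mul, abs_of_pos (by linarith : (0:ℝ) < 2 * Cu)]
    nlinarith [abs_nonneg c]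
  · rw [htrg', htrβ, abs_mul, hεabs, one_mul, abs_mul, abs_of_pos (by linarith : (0:ℝ) < 2 * Cv)]
    nlinarith [abs_nonneg c]
  · have e := tr_mul_tr h (h⁻¹ * g)
    have e1 : h * (h⁻¹ * g) = g := by group
    rw [e1, htrh, htrβ, htrg] at e
    have e2 : tr (h * (h⁻¹ * g)⁻¹) = ε * (4 * Cu * Cv * c ^ 2 - 2 * Cl) := by
      linear_combination -e
    rw [htrg', e2, abs_mul, hεabs, one_mul, abs_lt]
    have h1 : 0 < Cu * Cv * c ^ 2 := by positivity
    have h2 : Cu * Cv * c ^ 2 ≤ Cu * Cv := by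
      have : 0 < Cu * Cv := by positivity
      nlinarith
    constructor <;> nlinarith

lemma axis_zpow {g x : G} {l : ℝ} (h : g * x = x * geo l ∨ g * x = -(x * geo l)) (n : ℤ) :
    g ^ n * x = x * geo (n * l) ∨ g ^ n * x = -(x * geo (n * l)) := by
  rw [geo_int_mul]
  rcases eq_conj_of_axis h with h1 | h1
  · left
    rw [h1, conj_zpow]
    group
  · rw [h1]
    have e : (-(x * geo l * x⁻¹)) ^ n = (-1) ^ n * (x * geo l ^ n * x⁻¹) := by
      have h2 : -(x * geo l * x⁻¹) = (-1) * (x * geo l * x⁻¹) := by rw [neg_mul, one_mul]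
      rw [h2, Commute.mul_zpow (by simp [Commute, SemiconjBy]), conj_zpow]
    rw [e]
    rcases Int.even_or_odd n with hn | hn
    · left
      rw [hn.neg_one_zpow]
      group
    · right
      have h3 : ((-1 : G)) ^ n = -1 := by
        obtain ⟨m, rfl⟩ := hn
        rw [_root_.zpow_add, _root_.zpow_mul]
        simp
      rw [h3]
      simp only [neg_mul, one_mul]
      group

lemma neg_smul_I (g : G) (z : UpperHalfPlane) : (-g) • z = g • z := by
  rw [← UpperHalfPlane.coe_inj, UpperHalfPlane.coe_specialLinearGroup_apply,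
    UpperHalfPlane.coe_specialLinearGroup_apply]
  change (((-g 0 0 : ℝ) : ℂ) * z + ((-g 0 1 : ℝ) : ℂ)) /
    (((-g 1 0 : ℝ) : ℂ) * z + ((-g 1 1 : ℝ) : ℂ)) = (((g 0 0 : ℝ) : ℂ) * z + ((g 0 1 : ℝ) : ℂ)) /
    (((g 1 0 : ℝ) : ℂ) * z + ((g 1 1 : ℝ) : ℂ))
  rw [← neg_div_neg_eq]
  congr 1 <;> push_cast <;> ring

lemma line_neg (x : G) : line (-x) = line x := by
  unfold line
  congr 1
  ext t : 1
  rw [neg_mul, neg_smul_I]

lemma line_mul_geo (x : G) (s : ℝ) : line (x * geo s) = line x := by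
  unfold line
  ext z
  constructor
  · rintro ⟨t, rfl⟩
    exact ⟨s + t, by simp only [geo_add, mul_assoc]⟩
  · rintro ⟨t, rfl⟩
    refine ⟨t - s, ?_⟩
    simp only
    rw [mul_assoc, ← geo_add]
    congr 3
    ring

lemma line_of_axis {g x : G} {l : ℝ} (h : g * x = x * geo l ∨ g * x = -(x * geo l)) :
    line (g * x) = line x := by
  rcases h with h | h
  · rw [h, line_mul_geo]
  · rw [h, line_neg, line_mul_geo]

/-- A nontrivial non-simple element is a product of two elements `α`, `β` such that `α`, `β` and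
`α β⁻¹` have smaller traces. -/
theorem IsSurfaceGroup.exists_resolution (hΓ : IsSurfaceGroup Γ) {g : Γ}
    (h1 : g ≠ 1) (hns : ¬ IsSimpleElt Γ g) :
    ∃ α ∈ Γ, ∃ β ∈ Γ, (g : G) = α * β ∧ |tr α| < |tr g| ∧ |tr β| < |tr g| ∧
      |tr (α * β⁻¹)| < |tr g| := by
  have h1' : (g : G) ≠ 1 := fun h => h1 (Subtype.ext h)
  obtain ⟨x, l, hl, hx⟩ := hΓ.exists_axis g.2 h1'
  have h2 : ¬ IsSimpleClosed Γ x := fun h => hns ⟨h1, x, l, hl, hx, h⟩
  simp only [IsSimpleClosed, not_and] at h2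
  have h3 := h2 ⟨g, g.2, l, hl, hx⟩
  push Not at h3
  obtain ⟨δ, hδ, hne, hnd⟩ := h3
  rw [Set.not_disjoint_iff] at hnd
  obtain ⟨z, ⟨s, hs⟩, ⟨t, ht⟩⟩ := hnd
  simp only at hs ht
  set n : ℤ := ⌊(t - s) / l⌋ with hn
  have hn1 : (n : ℝ) * l ≤ t - s := by
    have := Int.floor_le ((t - s) / l)
    rw [← hn] at this
    rwa [le_div_iff₀ hl] at this
  have hn2 : t - s < n * l + l := by
    have := Int.lt_floor_add_one ((t - s) / l)
    rw [← hn, div_lt_iff₀ hl] at this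
    linarith
  set δ' : G := (g : G) ^ (-n) * δ with hδ'
  have hδ'mem : δ' ∈ Γ := Γ.mul_mem (Γ.zpow_mem g.2 _) hδ
  have hax := axis_zpow hx (-n)
  have hpt : δ' • ((x * geo s) • UpperHalfPlane.I) =
      (x * geo (t - n * l)) • UpperHalfPlane.I := by
    have e1 : δ' • ((x * geo s) • UpperHalfPlane.I) =
        (g : G) ^ (-n) • ((x * geo t) • UpperHalfPlane.I) := by
      rw [ht, ← hs, hδ', mul_smul]
      congr 1
      rw [← mul_smul, mul_assoc]
    rw [e1, ← mul_smul, ← mul_assoc]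
    have e2 : geo (t - n * l) = geo ((-n : ℤ) * l) * geo t := by
      rw [← geo_add]; congr 1; push_cast; ring
    rcases hax with h4 | h4
    · rw [h4, e2, mul_assoc]
    · rw [h4, e2, neg_mul, neg_smul_I, mul_assoc]
  have hrot := (smul_axis_iff x δ' s (t - n * l)).mp hpt
  rcases eq_or_lt_of_le hn1 with h5 | h5
  · exfalso
    have e3 : t - n * l = s := by linarith
    rw [e3] at hrot
    have e4 : δ' = (x * geo s) * ((x * geo s)⁻¹ * δ' * (x * geo s)) * (x * geo s)⁻¹ := by group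
    have e5 : tr δ' = 2 * ((x * geo s)⁻¹ * δ' * (x * geo s)) 0 0 := by
      rw [e4, tr_conj, tr, ← hrot.1]
      rw [← e4]; ring
    have e6 := hrot.sq
    have e7 : δ' = 1 := by
      by_contra hne'
      have h6 := hΓ.two_lt hδ'mem hne'
      rw [e5, abs_mul, abs_two] at h6
      have h7 : |((x * geo s)⁻¹ * δ' * (x * geo s)) 0 0| ≤ 1 := by
        rw [← sq_le_one_iff_abs_le_one]
        nlinarith [sq_nonneg (((x * geo s)⁻¹ * δ' * (x * geo s)) 0 1)]
      linarith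
    have e8 : δ = (g : G) ^ n := by
      rw [hδ', _root_.zpow_neg, inv_mul_eq_one] at e7
      exact e7.symm
    apply hne
    rw [e8]
    rcases axis_zpow hx n with h8 | h8
    · rw [h8, line_mul_geo]
    · rw [h8, line_neg, line_mul_geo]
  · exact hΓ.resolve g.2 hx hδ'mem (s := s) (t := t - n * l) (by linarith) (by linarith) hrot

lemma IsSimpleElt.ne_one {g : Γ} (h : IsSimpleElt Γ g) : g ≠ 1 := h.1

/-- Simple elements exist. -/
theorem IsSurfaceGroup.exists_simple (hΓ : IsSurfaceGroup Γ) : ∃ g, IsSimpleElt Γ g := by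
  by_contra hcon
  push Not at hcon
  have hall : ∀ g ∈ Γ, g = 1 := by
    apply hΓ.trace_induction (fun g => g = 1)
    intro g hg ih
    by_contra h1
    have h1' : (⟨g, hg⟩ : Γ) ≠ 1 := fun h => h1 (congrArg Subtype.val h)
    obtain ⟨α, hα, β, hβ, hgab, h2, h3, -⟩ := hΓ.exists_resolution h1' (hcon ⟨g, hg⟩)
    have e1 : α = 1 := ih α hα h2
    have e2 : β = 1 := ih β hβ h3
    rw [e1, e2, one_mul] at hgab
    exact h1 hgab
  obtain ⟨B, hB, hcov⟩ := hΓ.exists_cocompact_bdd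
  obtain ⟨g, hg, k, hk, hx⟩ := hcov (geo (2 * (B + 1)))
  rw [hall g hg, one_mul] at hx
  have h1 := hk 0 0
  rw [← hx, geo_00, abs_of_pos (Real.exp_pos _)] at h1
  have h2 := Real.add_one_le_exp (2 * (B + 1) / 2)
  linarith

/-- Every trace function is controlled by finitely many traces of simple elements. -/
theorem IsSurfaceGroup.controlled (hΓ : IsSurfaceGroup Γ) (w : Γ) :
    ∃ F : Finset Γ, (∀ f ∈ F, IsSimpleElt Γ f) ∧ ∀ M : ℝ, ∃ M' : ℝ, ∀ ψ : Γ →* SL(2, ℝ),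
      (∀ f ∈ F, |tr (ψ f)| ≤ M) → |tr (ψ w)| ≤ M' := by
  classical
  have key : ∀ g ∈ Γ, ∀ hg : g ∈ Γ, ∃ F : Finset Γ, (∀ f ∈ F, IsSimpleElt Γ f) ∧
      ∀ M : ℝ, ∃ M' : ℝ, ∀ ψ : Γ →* SL(2, ℝ),
      (∀ f ∈ F, |tr (ψ f)| ≤ M) → |tr (ψ ⟨g, hg⟩)| ≤ M' := by
    refine hΓ.trace_induction (fun g => ∀ hg : g ∈ Γ, ∃ F : Finset Γ,
      (∀ f ∈ F, IsSimpleElt Γ f) ∧ ∀ M : ℝ, ∃ M' : ℝ, ∀ ψ : Γ →* SL(2, ℝ),
      (∀ f ∈ F, |tr (ψ f)| ≤ M) → |tr (ψ ⟨g, hg⟩)| ≤ M') ?_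
    intro g _ ih hg
    by_cases h1 : (⟨g, hg⟩ : Γ) = 1
    · refine ⟨∅, by simp, fun M => ⟨2, fun ψ _ => ?_⟩⟩
      rw [h1, map_one, tr_one]
      norm_num
    by_cases hs : IsSimpleElt Γ ⟨g, hg⟩
    · exact ⟨{⟨g, hg⟩}, by simpa using hs, fun M => ⟨M, fun ψ hψ => hψ _ (by simp)⟩⟩
    obtain ⟨α, hα, β, hβ, hgab, h2, h3, h4⟩ := hΓ.exists_resolution h1 hs
    have hαβ : α * β⁻¹ ∈ Γ := Γ.mul_mem hα (Γ.inv_mem hβ)
    obtain ⟨F1, hF1, c1⟩ := ih α hα h2 hα
    obtain ⟨F2, hF2, c2⟩ := ih β hβ h3 hβ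
    obtain ⟨F3, hF3, c3⟩ := ih (α * β⁻¹) hαβ h4 hαβ
    refine ⟨F1 ∪ (F2 ∪ F3), ?_, fun M => ?_⟩
    · intro f hf
      rcases Finset.mem_union.mp hf with h | h
      · exact hF1 f h
      · rcases Finset.mem_union.mp h with h | h
        · exact hF2 f h
        · exact hF3 f h
    · obtain ⟨M1, hM1⟩ := c1 M
      obtain ⟨M2, hM2⟩ := c2 M
      obtain ⟨M3, hM3⟩ := c3 M
      refine ⟨|M1| * |M2| + |M3|, fun ψ hψ => ?_⟩
      have b1 := hM1 ψ (fun f hf => hψ f (Finset.mem_union_left _ hf))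
      have b2 := hM2 ψ (fun f hf => hψ f
        (Finset.mem_union_right _ (Finset.mem_union_left _ hf)))
      have b3 := hM3 ψ (fun f hf => hψ f
        (Finset.mem_union_right _ (Finset.mem_union_right _ hf)))
      have e1 : ψ ⟨g, hg⟩ = ψ ⟨α, hα⟩ * ψ ⟨β, hβ⟩ := by
        rw [← map_mul]; congr 1; exact Subtype.ext hgab
      have e2 : ψ ⟨α * β⁻¹, hαβ⟩ = ψ ⟨α, hα⟩ * (ψ ⟨β, hβ⟩)⁻¹ := by
        rw [← map_inv, ← map_mul]; rfl
      have e3 := tr_mul_tr (ψ ⟨α, hα⟩) (ψ ⟨β, hβ⟩)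
      rw [← e1, ← e2] at e3
      have e4 : tr (ψ ⟨g, hg⟩) = tr (ψ ⟨α, hα⟩) * tr (ψ ⟨β, hβ⟩) - tr (ψ ⟨α * β⁻¹, hαβ⟩) := by
        linarith
      rw [e4]
      calc |tr (ψ ⟨α, hα⟩) * tr (ψ ⟨β, hβ⟩) - tr (ψ ⟨α * β⁻¹, hαβ⟩)|
          ≤ |tr (ψ ⟨α, hα⟩) * tr (ψ ⟨β, hβ⟩)| + |tr (ψ ⟨α * β⁻¹, hαβ⟩)| := abs_sub _ _
        _ ≤ |M1| * |M2| + |M3| := by
            rw [abs_mul]
            exact add_le_add (mul_le_mul (b1.trans (le_abs_self _)) (b2.trans (le_abs_self _))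
              (abs_nonneg _) (abs_nonneg _)) (b3.trans (le_abs_self _))
  exact key w w.2 w.2

end Pool.Agent.SimpleAnosov
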