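import Pool.Agent.H76.SA.Cross

open Matrix Filter Topology
open scoped MatrixGroups

set_option linter.unusedSimpArgs false

namespace Pool.Agent.SimpleAnosov

variable {Γ : Subgroup G}

/-- There is a chain from `u` to `v` with steps in `E` avoiding `A`. -/
def ChainAvoid {H : Type*} [Group H] (E A : Set H) (u v : H) : Prop :=
  ∃ (n : ℕ) (p : ℕ → H), p 0 = u ∧ p n = v ∧ (∀ i < n, (p i)⁻¹ * p (i + 1) ∈ E) ∧
    ∀ i ≤ n, p i ∉ A

/-- The union of the right translates of `⟨γ⟩` by `B`. -/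
def zspan {H : Type*} [Group H] (γ : H) (B : Set H) : Set H :=
  {x | ∃ k : ℤ, ∃ b ∈ B, x = γ ^ k * b}

/-- `η` coarsely crosses `γ`. -/
def Cr {H : Type*} [Group H] (γ η : H) : Prop :=
  ∀ E : Set H, E.Finite → ∃ B : Set H, B.Finite ∧ ∃ N : ℕ, ∀ n ≥ N,
    ¬ ChainAvoid E (zspan γ B) (η ^ n) ((η⁻¹) ^ n)

lemma Cr.map {H : Type*} [Group H] {γ η : H} (h : Cr γ η) (φ : H ≃* H) : Cr (φ γ) (φ η) := by
  intro E hE
  obtain ⟨B, hB, N, hN⟩ := h (φ ⁻¹' E) (hE.preimage φ.injective.injOn)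
  refine ⟨φ '' B, hB.image _, N, fun n hn => ?_⟩
  rintro ⟨m, p, hp0, hpm, hstep, havoid⟩
  apply hN n hn
  refine ⟨m, fun i => φ.symm (p i), ?_, ?_, ?_, ?_⟩
  · simp only [hp0]; rw [← map_pow]; simp
  · simp only [hpm]; rw [← map_inv, ← map_pow]; simp
  · intro i hi
    have := hstep i hi
    simp only [Set.mem_preimage, map_mul, map_inv, MulEquiv.apply_symm_apply]
    exact this
  · intro i hi hmem
    apply havoid i hi
    obtain ⟨k, b, hb, hkb⟩ := hmem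
    refine ⟨k, φ b, ⟨b, hb, rfl⟩, ?_⟩
    have := congrArg φ hkb
    simp only [MulEquiv.apply_symm_apply, map_mul, map_zpow] at this
    exact this

lemma zpow_conj_form {γ X : G} {l : ℝ} (h : γ * X = X * geo l ∨ γ * X = -(X * geo l)) (δ : G)
    (k : ℤ) : X⁻¹ * (δ * γ * δ⁻¹) ^ k = (X⁻¹ * δ * X) * geo (k * l) * (X⁻¹ * δ⁻¹) ∨
      X⁻¹ * (δ * γ * δ⁻¹) ^ k = -((X⁻¹ * δ * X) * geo (k * l) * (X⁻¹ * δ⁻¹)) := by
  have hk := axis_zpow h k
  have e : ∀ Y : G, γ ^ k * X = Y → X⁻¹ * (δ * γ * δ⁻¹) ^ k = X⁻¹ * δ * Y * (X⁻¹ * δ⁻¹) := by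
    intro Y hY
    rw [conj_zpow, ← hY]
    group
  rcases hk with hk | hk
  · left
    rw [e _ hk]
    group
  · right
    rw [e _ hk]
    simp only [mul_neg, neg_mul]
    group

lemma F_form (h R : G) (t : ℝ) : F (h * geo t * R) =
    (h 0 0 * h 1 0 * (R 0 0 ^ 2 + R 0 1 ^ 2)) * Real.exp t +
    (h 0 0 * h 1 1 + h 0 1 * h 1 0) * F R +
    (h 0 1 * h 1 1 * (R 1 0 ^ 2 + R 1 1 ^ 2)) * Real.exp (-t) := by
  have h1 : Real.exp t = Real.exp (t / 2) * Real.exp (t / 2) := by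
    rw [← Real.exp_add]; congr 1; ring
  have h2 : Real.exp (-t) = Real.exp (-(t / 2)) * Real.exp (-(t / 2)) := by
    rw [← Real.exp_add]; congr 1; ring
  have h3 : Real.exp (t / 2) * Real.exp (-(t / 2)) = 1 := by rw [← Real.exp_add]; simp
  unfold F
  simp only [mul_00, mul_01, mul_10, mul_11, geo_00, geo_01, geo_10, geo_11, h1, h2, mul_zero,
    add_zero, zero_add]
  linear_combination ((h 0 0 * h 1 1 + h 0 1 * h 1 0) * (R 0 0 * R 1 0 + R 0 1 * R 1 1)) * h3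

lemma growth {A β Ω l : ℝ} (hA : 0 < A) (hl : 0 < l) (R' : ℝ) :
    ∃ N : ℕ, ∀ n : ℕ, N ≤ n → R' < A * Real.exp (n * l) + β + Ω * Real.exp (-(n * l)) := by
  obtain ⟨N, hN⟩ := exists_nat_gt ((|R'| + |β| + |Ω|) / (A * l))
  refine ⟨N, fun n hn => ?_⟩
  have hAl : 0 < A * l := mul_pos hA hl
  rw [div_lt_iff₀ hAl] at hN
  have hnN : (N : ℝ) ≤ n := by exact_mod_cast hn
  have h1 : n * l + 1 ≤ Real.exp (n * l) := Real.add_one_le_exp _
  have h2 : Real.exp (-(n * l)) ≤ 1 := by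
    rw [Real.exp_le_one_iff]
    have : 0 ≤ (n : ℝ) * l := by positivity
    linarith
  have h3 : 0 < Real.exp (-(n * l)) := Real.exp_pos _
  have h4 : -|Ω| ≤ Ω * Real.exp (-(n * l)) := by
    have := neg_abs_le Ω
    have h5 : |Ω| * Real.exp (-(n * l)) ≤ |Ω| := by nlinarith [abs_nonneg Ω]
    nlinarith
  have h5 : A * (n * l + 1) ≤ A * Real.exp (n * l) := by gcongr
  have h6 : N * (A * l) ≤ n * (A * l) := by gcongr
  have := le_abs_self R'
  have := neg_abs_le β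
  nlinarith

lemma real_jump {x y p q a b c d B : ℝ} (hB : 0 < B) (hdet : x * q - y * p = 1)
    (hdete : a * d - b * c = 1) (ha : |a| ≤ B) (hb : |b| ≤ B) (hc : |c| ≤ B) (hd : |d| ≤ B)
    (hN : 0 < p ^ 2 + q ^ 2) (h1 : 0 ≤ x * p + y * q)
    (h2 : (x * a + y * c) * (p * a + q * c) + (x * b + y * d) * (p * b + q * d) ≤ 0) :
    x * p + y * q ≤ 16 * B ^ 4 := by
  obtain ⟨f, hf⟩ : ∃ f, f = x * p + y * q := ⟨_, rfl⟩
  obtain ⟨u, hu⟩ : ∃ u, u = p * a + q * c := ⟨_, rfl⟩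
  obtain ⟨v, hv⟩ : ∃ v, v = p * b + q * d := ⟨_, rfl⟩
  obtain ⟨N, hNdef⟩ : ∃ N, N = p ^ 2 + q ^ 2 := ⟨_, rfl⟩
  rw [← hf] at h1 ⊢
  rw [← hu, ← hv] at h2
  rw [← hNdef] at hN
  have hx : N * x = f * p + q := by
    rw [hf, hNdef]; linear_combination q * hdet
  have hy : N * y = f * q - p := by
    rw [hf, hNdef]; linear_combination (-p) * hdet
  have key : N * ((x * a + y * c) * u + (x * b + y * d) * v) = f * (u ^ 2 + v ^ 2) +
      ((q * a - p * c) * u + (q * b - p * d) * v) := by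
    have : N * ((x * a + y * c) * u + (x * b + y * d) * v) =
      ((N * x) * a + (N * y) * c) * u + ((N * x) * b + (N * y) * d) * v := by ring
    rw [this, hx, hy, hu, hv]
    ring
  have ba : a ^ 2 ≤ B ^ 2 := sq_le_sq' (by have := (abs_le.mp ha).1; linarith) (abs_le.mp ha).2
  have bb : b ^ 2 ≤ B ^ 2 := sq_le_sq' (by have := (abs_le.mp hb).1; linarith) (abs_le.mp hb).2
  have bc : c ^ 2 ≤ B ^ 2 := sq_le_sq' (by have := (abs_le.mp hc).1; linarith) (abs_le.mp hc).2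
  have bd : d ^ 2 ≤ B ^ 2 := sq_le_sq' (by have := (abs_le.mp hd).1; linarith) (abs_le.mp hd).2
  have hsum : a ^ 2 + b ^ 2 + c ^ 2 + d ^ 2 ≤ 4 * B ^ 2 := by linarith
  have hlow : N ≤ 4 * B ^ 2 * (u ^ 2 + v ^ 2) := by
    have hp : p = u * d - v * c := by
      rw [hu, hv]; linear_combination (-p) * hdete
    have hq : q = -u * b + v * a := by
      rw [hu, hv]; linear_combination (-q) * hdete
    have e1 : p ^ 2 ≤ (u ^ 2 + v ^ 2) * (d ^ 2 + c ^ 2) := by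
      rw [hp]; nlinarith [sq_nonneg (u * c + v * d)]
    have e2 : q ^ 2 ≤ (u ^ 2 + v ^ 2) * (b ^ 2 + a ^ 2) := by
      rw [hq]; nlinarith [sq_nonneg (u * a + v * b)]
    have e3 : (u ^ 2 + v ^ 2) * (a ^ 2 + b ^ 2 + c ^ 2 + d ^ 2) ≤ (u ^ 2 + v ^ 2) * (4 * B ^ 2) := by
      gcongr
    rw [hNdef]; linarith
  have hup : u ^ 2 + v ^ 2 ≤ 4 * B ^ 2 * N := by
    have e1 : u ^ 2 ≤ N * (a ^ 2 + c ^ 2) := by
      rw [hu, hNdef]; nlinarith [sq_nonneg (p * c - q * a)]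
    have e2 : v ^ 2 ≤ N * (b ^ 2 + d ^ 2) := by
      rw [hv, hNdef]; nlinarith [sq_nonneg (p * d - q * b)]
    have e3 : N * (a ^ 2 + b ^ 2 + c ^ 2 + d ^ 2) ≤ N * (4 * B ^ 2) := by gcongr
    linarith
  have hcross : -(4 * B ^ 2 * N) ≤ (q * a - p * c) * u + (q * b - p * d) * v := by
    have e1 : (q * a - p * c) ^ 2 ≤ N * (a ^ 2 + c ^ 2) := by
      rw [hNdef]; nlinarith [sq_nonneg (q * c + p * a)]
    have e2 : (q * b - p * d) ^ 2 ≤ N * (b ^ 2 + d ^ 2) := by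
      rw [hNdef]; nlinarith [sq_nonneg (q * d + p * b)]
    have e3 : N * (a ^ 2 + b ^ 2 + c ^ 2 + d ^ 2) ≤ N * (4 * B ^ 2) := by gcongr
    have e5 := sq_nonneg ((q * a - p * c) + u)
    have e6 := sq_nonneg ((q * b - p * d) + v)
    linarith
  have hfin : f * (u ^ 2 + v ^ 2) ≤ 4 * B ^ 2 * N := by
    have : N * ((x * a + y * c) * u + (x * b + y * d) * v) ≤ 0 :=
      mul_nonpos_of_nonneg_of_nonpos hN.le h2
    linarith
  have h5 : f * N ≤ f * (4 * B ^ 2 * (u ^ 2 + v ^ 2)) := by gcongr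
  have h6 : f * N ≤ (16 * B ^ 4) * N := by
    calc f * N ≤ f * (4 * B ^ 2 * (u ^ 2 + v ^ 2)) := h5
      _ = 4 * B ^ 2 * (f * (u ^ 2 + v ^ 2)) := by ring
      _ ≤ 4 * B ^ 2 * (4 * B ^ 2 * N) := by gcongr
      _ = _ := by ring
  exact le_of_mul_le_mul_right h6 hN

/-- If multiplication by `e` changes the sign of `F`, then `F` is bounded. -/
lemma F_jump {M e : G} {B : ℝ} (hB : 0 < B) (he : ∀ i j, |e i j| ≤ B) (h1 : 0 ≤ F M)
    (h2 : F (M * e) ≤ 0) : F M ≤ 16 * B ^ 4 := by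
  have hFMe : F (M * e) = (M 0 0 * e 0 0 + M 0 1 * e 1 0) * (M 1 0 * e 0 0 + M 1 1 * e 1 0) +
      (M 0 0 * e 0 1 + M 0 1 * e 1 1) * (M 1 0 * e 0 1 + M 1 1 * e 1 1) := by
    unfold F; rw [mul_00, mul_01, mul_10, mul_11]
  rw [hFMe] at h2
  exact real_jump hB (G_det M) (G_det e) (he 0 0) (he 0 1) (he 1 0) (he 1 1) (row_pos M) h1 h2

lemma real_strip {r1 r2 f C l : ℝ} (hl : 0 < l) (hC : |f| ≤ C) (hr1pos : 0 < r1)
    (hr2pos : 0 < r2) (hprod : r1 * r2 = f ^ 2 + 1) :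
    ∃ k : ℤ, Real.exp (-(k * l)) * r1 ≤ Real.exp l * (C + 1) ∧
      Real.exp (k * l) * r2 ≤ Real.exp l * (C + 1) := by
  have hC0 : 0 ≤ C := (abs_nonneg _).trans hC
  obtain ⟨Q, hQ⟩ : ∃ Q, Q = r1 / r2 := ⟨_, rfl⟩
  have hQpos : 0 < Q := hQ ▸ div_pos hr1pos hr2pos
  obtain ⟨k, hk⟩ : ∃ k : ℤ, k = ⌊Real.log Q / (2 * l)⌋ := ⟨_, rfl⟩
  have hk1 : (k : ℝ) * (2 * l) ≤ Real.log Q := by
    have := Int.floor_le (Real.log Q / (2 * l))
    rwa [← hk, le_div_iff₀ (by positivity)] at this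
  have hk2 : Real.log Q < ((k : ℝ) + 1) * (2 * l) := by
    have := Int.lt_floor_add_one (Real.log Q / (2 * l))
    rwa [← hk, div_lt_iff₀ (by positivity)] at this
  have hQ1 : Real.exp (k * (2 * l)) ≤ Q := by
    rwa [← Real.le_log_iff_exp_le hQpos]
  have hQ2 : Q ≤ Real.exp ((k + 1) * (2 * l)) := by
    rw [← Real.log_le_iff_le_exp hQpos]; exact hk2.le
  obtain ⟨s1, hs1⟩ : ∃ s1, s1 = Real.exp (-(k * l)) * r1 := ⟨_, rfl⟩
  obtain ⟨s2, hs2⟩ : ∃ s2, s2 = Real.exp (k * l) * r2 := ⟨_, rfl⟩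
  have hs1pos : 0 < s1 := by rw [hs1]; positivity
  have hs2pos : 0 < s2 := by rw [hs2]; positivity
  have hexp : Real.exp (-(k * l)) * Real.exp (k * l) = 1 := by rw [← Real.exp_add]; simp
  have hs12 : s1 * s2 = f ^ 2 + 1 := by
    rw [hs1, hs2, ← hprod]; linear_combination (r1 * r2) * hexp
  have hF2 : f ^ 2 + 1 ≤ (C + 1) ^ 2 := by
    have := sq_le_sq' (by have := (abs_le.mp hC).1; linarith) (abs_le.mp hC).2
    nlinarith
  have hle : s2 ≤ s1 := by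
    have h1 : Real.exp (k * (2 * l)) * r2 ≤ r1 := by
      have := mul_le_mul_of_nonneg_right hQ1 hr2pos.le
      rwa [hQ, div_mul_cancel₀ _ hr2pos.ne'] at this
    have h2 : Real.exp (k * (2 * l)) = Real.exp (k * l) * Real.exp (k * l) := by
      rw [← Real.exp_add]; congr 1; ring
    rw [h2] at h1
    have h3 : Real.exp (-(k * l)) * (Real.exp (k * l) * Real.exp (k * l) * r2) ≤
        Real.exp (-(k * l)) * r1 := by gcongr
    rw [hs1, hs2]
    calc Real.exp (k * l) * r2 = (Real.exp (-(k * l)) * Real.exp (k * l)) *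
          (Real.exp (k * l) * r2) := by rw [hexp, one_mul]
      _ = Real.exp (-(k * l)) * (Real.exp (k * l) * Real.exp (k * l) * r2) := by ring
      _ ≤ _ := h3
  have hle2 : s1 ≤ Real.exp (2 * l) * s2 := by
    have h1 : r1 ≤ Real.exp ((k + 1) * (2 * l)) * r2 := by
      have := mul_le_mul_of_nonneg_right hQ2 hr2pos.le
      rwa [hQ, div_mul_cancel₀ _ hr2pos.ne'] at this
    have h2 : Real.exp ((k + 1) * (2 * l)) =
        Real.exp (2 * l) * (Real.exp (k * l) * Real.exp (k * l)) := by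
      rw [← Real.exp_add, ← Real.exp_add]; congr 1; ring
    rw [h2] at h1
    rw [hs1, hs2]
    calc Real.exp (-(k * l)) * r1 ≤ Real.exp (-(k * l)) *
          (Real.exp (2 * l) * (Real.exp (k * l) * Real.exp (k * l)) * r2) := by gcongr
      _ = (Real.exp (-(k * l)) * Real.exp (k * l)) * (Real.exp (2 * l) *
          (Real.exp (k * l) * r2)) := by ring
      _ = _ := by rw [hexp, one_mul]
  have hK : 1 ≤ Real.exp l := by
    have := Real.add_one_le_exp l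
    linarith
  have hs2bd : s2 ≤ C + 1 := by
    by_contra hcon
    push Not at hcon
    nlinarith
  have hs1bd : s1 ≤ Real.exp l * (C + 1) := by
    have h1 : s1 * s1 ≤ (Real.exp l * (C + 1)) * (Real.exp l * (C + 1)) := by
      have h2 : Real.exp (2 * l) = Real.exp l * Real.exp l := by
        rw [← Real.exp_add]; congr 1; ring
      calc s1 * s1 ≤ s1 * (Real.exp (2 * l) * s2) := by gcongr
        _ = Real.exp (2 * l) * (s1 * s2) := by ring
        _ ≤ Real.exp (2 * l) * (C + 1) ^ 2 := by rw [hs12]; gcongr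
        _ = _ := by rw [h2]; ring
    exact (mul_self_le_mul_self_iff hs1pos.le (by positivity)).mpr h1
  refine ⟨k, hs1 ▸ hs1bd, hs2 ▸ hs2bd.trans ?_⟩
  nlinarith

lemma abs_le_of_sq {z K : ℝ} (hK : 1 ≤ K) (hz : z ^ 2 ≤ K) : |z| ≤ K := by
  rw [← sq_abs] at hz
  nlinarith [abs_nonneg z]

/-- If `F M` is bounded, then after applying a power of `geo l` the matrix `M` is bounded. -/
lemma F_strip {M : G} {C l : ℝ} (hl : 0 < l) (hC : |F M| ≤ C) :
    ∃ k : ℤ, ∀ i j, |(geo (-(k * l)) * M) i j| ≤ Real.exp l * (C + 1) := by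
  have hdet := G_det M
  have hC0 : 0 ≤ C := (abs_nonneg _).trans hC
  have hprod : (M 0 0 ^ 2 + M 0 1 ^ 2) * (M 1 0 ^ 2 + M 1 1 ^ 2) = F M ^ 2 + 1 := by
    rw [F]; linear_combination (M 0 0 * M 1 1 - M 0 1 * M 1 0 + 1) * hdet
  have hr1pos : 0 < M 0 0 ^ 2 + M 0 1 ^ 2 := by
    have h2 := row_pos M
    by_contra hcon
    push Not at hcon
    have := mul_nonpos_of_nonpos_of_nonneg hcon h2.le
    rw [hprod] at this
    nlinarith [sq_nonneg (F M)]
  obtain ⟨k, h1, h2⟩ := real_strip hl hC hr1pos (row_pos M) hprod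
  have hK : 1 ≤ Real.exp l * (C + 1) := by
    have := Real.add_one_le_exp l
    nlinarith
  have he1 : Real.exp (-(k * l) / 2) ^ 2 = Real.exp (-(k * l)) := by
    rw [sq, ← Real.exp_add]; congr 1; ring
  have he2 : Real.exp (-(-(k * l) / 2)) ^ 2 = Real.exp (k * l) := by
    rw [sq, ← Real.exp_add]; congr 1; ring
  have hpos1 : 0 < Real.exp (-(k * l)) := Real.exp_pos _
  have hpos2 : 0 < Real.exp (k * l) := Real.exp_pos _
  refine ⟨k, bdd_of_entries ?_ ?_ ?_ ?_⟩ <;> apply abs_le_of_sq hK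
  · rw [mul_00, geo_00, geo_01, zero_mul, add_zero, mul_pow, he1]
    nlinarith [sq_nonneg (M 0 1)]
  · rw [mul_01, geo_00, geo_01, zero_mul, add_zero, mul_pow, he1]
    nlinarith [sq_nonneg (M 0 0)]
  · rw [mul_10, geo_10, geo_11, zero_mul, zero_add, mul_pow, he2]
    nlinarith [sq_nonneg (M 1 1)]
  · rw [mul_11, geo_10, geo_11, zero_mul, zero_add, mul_pow, he2]
    nlinarith [sq_nonneg (M 1 0)]

end Pool.Agent.SimpleAnosov
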