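import Pool.Agent.H76.SA.Sep

open Matrix Filter Topology
open scoped MatrixGroups

set_option linter.unusedSimpArgs false

namespace Pool.Agent.SimpleAnosov

variable {Γ : Subgroup G}

lemma exists_entry_bound (g : G) : ∃ B : ℝ, 0 < B ∧ ∀ i j, |g i j| ≤ B := by
  obtain ⟨B, hB, h⟩ := IsCompact.exists_bdd (isCompact_singleton (x := g))
  exact ⟨B, hB, h g rfl⟩

lemma finite_entry_bound {E : Set G} (hE : E.Finite) :
    ∃ B : ℝ, 0 < B ∧ ∀ g ∈ E, ∀ i j, |g i j| ≤ B :=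
  IsCompact.exists_bdd hE.isCompact

/-- Elements close to the axis are in finitely many cosets of `⟨γ⟩`. -/
lemma IsSurfaceGroup.mem_zspan (hΓ : IsSurfaceGroup Γ) {γ : Γ} {X : G} {l : ℝ} (hl : 0 < l)
    (hax : (γ : G) * X = X * geo l ∨ (γ : G) * X = -(X * geo l)) (C : ℝ) :
    ∃ B : Set Γ, B.Finite ∧ ∀ g : Γ, |F (X⁻¹ * g)| ≤ C → g ∈ zspan γ B := by
  obtain ⟨XB, hXB, hXb⟩ := exists_entry_bound X
  refine ⟨{b : Γ | ∀ i j, |(b : G) i j| ≤ 2 * XB * (Real.exp l * (C + 1))}, ?_, ?_⟩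
  · have := (hΓ.finite_bdd (2 * XB * (Real.exp l * (C + 1)))).preimage
      (f := (Subtype.val : Γ → G)) Subtype.val_injective.injOn
    exact this.subset (fun b hb => ⟨b.2, hb⟩)
  · intro g hg
    obtain ⟨k, hk⟩ := F_strip hl hg
    refine ⟨k, γ ^ (-k) * g, ?_, by group⟩
    have e1 := axis_zpow hax (-k)
    have e2 : ((-k : ℤ) : ℝ) * l = -(k * l) := by push_cast; ring
    rw [e2] at e1
    intro i j
    have e3 : ((γ ^ (-k) * g : Γ) : G) = X * (geo (-(k * l)) * (X⁻¹ * g)) ∨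
        ((γ ^ (-k) * g : Γ) : G) = -(X * (geo (-(k * l)) * (X⁻¹ * g))) := by
      have e4 : ((γ ^ (-k) * g : Γ) : G) = ((γ : G) ^ (-k) * X) * (X⁻¹ * g) := by
        push_cast
        group
      rw [e4]
      rcases e1 with e1 | e1
      · left; rw [e1, mul_assoc]
      · right; rw [e1, neg_mul, mul_assoc]
    have hb := mul_bdd hXB.le hXb hk i j
    rcases e3 with e3 | e3
    · rw [e3]; exact hb
    · rw [e3]
      have : (-(X * (geo (-(k * l)) * (X⁻¹ * (g : G))))) i j =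
        -((X * (geo (-(k * l)) * (X⁻¹ * (g : G)))) i j) := rfl
      rw [this, abs_neg]; exact hb

lemma sign_change {f : ℕ → ℝ} {m : ℕ} (h0 : 0 < f 0) (hm : f m < 0) :
    ∃ i < m, 0 ≤ f i ∧ f (i + 1) ≤ 0 := by
  classical
  have hex : ∃ i, f i ≤ 0 := ⟨m, hm.le⟩
  set i := Nat.find hex with hi
  have hi1 : f i ≤ 0 := Nat.find_spec hex
  have hi0 : i ≠ 0 := by
    intro h
    rw [h] at hi1
    linarith
  have him : i ≤ m := Nat.find_min' hex hm.le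
  refine ⟨i - 1, by omega, ?_, ?_⟩
  · have := Nat.find_min hex (m := i - 1) (by omega)
    push Not at this
    exact this.le
  · have : i - 1 + 1 = i := by omega
    rw [this]; exact hi1

lemma F_conj_zpow {γ X : G} {l : ℝ} (h : γ * X = X * geo l ∨ γ * X = -(X * geo l)) (δ : G)
    (k : ℤ) : F (X⁻¹ * (δ * γ * δ⁻¹) ^ k) =
      ((X⁻¹ * δ * X) 0 0 * (X⁻¹ * δ * X) 1 0 * ((X⁻¹ * δ⁻¹) 0 0 ^ 2 + (X⁻¹ * δ⁻¹) 0 1 ^ 2)) *
        Real.exp (k * l) +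
      ((X⁻¹ * δ * X) 0 0 * (X⁻¹ * δ * X) 1 1 + (X⁻¹ * δ * X) 0 1 * (X⁻¹ * δ * X) 1 0) *
        F (X⁻¹ * δ⁻¹) +
      ((X⁻¹ * δ * X) 0 1 * (X⁻¹ * δ * X) 1 1 * ((X⁻¹ * δ⁻¹) 1 0 ^ 2 + (X⁻¹ * δ⁻¹) 1 1 ^ 2)) *
        Real.exp (-(k * l)) := by
  rw [← F_form]
  rcases zpow_conj_form h δ k with h1 | h1
  · rw [h1]
  · rw [h1, F_neg]

lemma row0_pos (M : G) : 0 < M 0 0 ^ 2 + M 0 1 ^ 2 := by
  have h := G_det M
  by_contra hcon
  push Not at hcon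
  have h1 : M 0 0 = 0 := by nlinarith [sq_nonneg (M 0 0), sq_nonneg (M 0 1)]
  have h2 : M 0 1 = 0 := by nlinarith [sq_nonneg (M 0 0), sq_nonneg (M 0 1)]
  rw [h1, h2] at h
  norm_num at h

/-- Eventual sign and size of `F (X⁻¹ η ^ n)` and `F (X⁻¹ η ^ (-n))`. -/
lemma F_growth {γ X : G} {l : ℝ} (hl : 0 < l)
    (h : γ * X = X * geo l ∨ γ * X = -(X * geo l)) (δ : G) (R : ℝ) :
    ∃ N : ℕ, ∀ n ≥ N,
      (0 < (X⁻¹ * δ * X) 0 0 * (X⁻¹ * δ * X) 1 0 → R < F (X⁻¹ * (δ * γ * δ⁻¹) ^ n)) ∧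
      ((X⁻¹ * δ * X) 0 0 * (X⁻¹ * δ * X) 1 0 < 0 → F (X⁻¹ * (δ * γ * δ⁻¹) ^ n) < -R) ∧
      (0 < (X⁻¹ * δ * X) 0 1 * (X⁻¹ * δ * X) 1 1 → R < F (X⁻¹ * ((δ * γ * δ⁻¹)⁻¹) ^ n)) ∧
      ((X⁻¹ * δ * X) 0 1 * (X⁻¹ * δ * X) 1 1 < 0 → F (X⁻¹ * ((δ * γ * δ⁻¹)⁻¹) ^ n) < -R) := by
  have hr0 := row0_pos (X⁻¹ * δ⁻¹)
  have hr1 := row_pos (X⁻¹ * δ⁻¹)
  have f1 := fun n : ℕ => F_conj_zpow h δ (n : ℤ)
  have f2 := fun n : ℕ => F_conj_zpow h δ (-(n : ℤ))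
  simp only [zpow_natCast, Int.cast_natCast] at f1
  simp only [_root_.zpow_neg, zpow_natCast, ← inv_pow, Int.cast_neg, Int.cast_natCast] at f2
  set r0 := (X⁻¹ * δ⁻¹) 0 0 ^ 2 + (X⁻¹ * δ⁻¹) 0 1 ^ 2
  set r1 := (X⁻¹ * δ⁻¹) 1 0 ^ 2 + (X⁻¹ * δ⁻¹) 1 1 ^ 2
  set ac := (X⁻¹ * δ * X) 0 0 * (X⁻¹ * δ * X) 1 0
  set bd := (X⁻¹ * δ * X) 0 1 * (X⁻¹ * δ * X) 1 1
  set β := ((X⁻¹ * δ * X) 0 0 * (X⁻¹ * δ * X) 1 1 + (X⁻¹ * δ * X) 0 1 * (X⁻¹ * δ * X) 1 0) *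
        F (X⁻¹ * δ⁻¹)
  have form1 : ∀ n : ℕ, F (X⁻¹ * (δ * γ * δ⁻¹) ^ n) =
      ac * r0 * Real.exp (n * l) + β + bd * r1 * Real.exp (-(n * l)) := f1
  have form2 : ∀ n : ℕ, F (X⁻¹ * ((δ * γ * δ⁻¹)⁻¹) ^ n) =
      ac * r0 * Real.exp (-n * l) + β + bd * r1 * Real.exp (-(-n * l)) := f2
  have g1 : ∃ N : ℕ, ∀ n ≥ N, 0 < ac → R < F (X⁻¹ * (δ * γ * δ⁻¹) ^ n) := by
    by_cases hac : 0 < ac
    · obtain ⟨N, hN⟩ := growth (A := ac * r0) (β := β) (Ω := bd * r1) (mul_pos hac hr0) hl R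
      exact ⟨N, fun n hn _ => by rw [form1]; exact hN n hn⟩
    · exact ⟨0, fun n _ h => absurd h hac⟩
  have g2 : ∃ N : ℕ, ∀ n ≥ N, ac < 0 → F (X⁻¹ * (δ * γ * δ⁻¹) ^ n) < -R := by
    by_cases hac : ac < 0
    · obtain ⟨N, hN⟩ := growth (A := -(ac * r0)) (β := -β) (Ω := -(bd * r1))
        (neg_pos.mpr (mul_neg_of_neg_of_pos hac hr0)) hl R
      exact ⟨N, fun n hn _ => by rw [form1]; have := hN n hn; linarith⟩
    · exact ⟨0, fun n _ h => absurd h hac⟩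
  have g3 : ∃ N : ℕ, ∀ n ≥ N, 0 < bd → R < F (X⁻¹ * ((δ * γ * δ⁻¹)⁻¹) ^ n) := by
    by_cases hbd : 0 < bd
    · obtain ⟨N, hN⟩ := growth (A := bd * r1) (β := β) (Ω := ac * r0) (mul_pos hbd hr1) hl R
      refine ⟨N, fun n hn _ => ?_⟩
      rw [form2]
      have := hN n hn
      have e1 : -((n : ℝ)) * l = -(n * l) := by ring
      rw [e1, neg_neg]
      linarith
    · exact ⟨0, fun n _ h => absurd h hbd⟩
  have g4 : ∃ N : ℕ, ∀ n ≥ N, bd < 0 → F (X⁻¹ * ((δ * γ * δ⁻¹)⁻¹) ^ n) < -R := by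
    by_cases hbd : bd < 0
    · obtain ⟨N, hN⟩ := growth (A := -(bd * r1)) (β := -β) (Ω := -(ac * r0))
        (neg_pos.mpr (mul_neg_of_neg_of_pos hbd hr1)) hl R
      refine ⟨N, fun n hn _ => ?_⟩
      rw [form2]
      have := hN n hn
      have e1 : -((n : ℝ)) * l = -(n * l) := by ring
      rw [e1, neg_neg]
      linarith
    · exact ⟨0, fun n _ h => absurd h hbd⟩
  obtain ⟨N1, h1⟩ := g1
  obtain ⟨N2, h2⟩ := g2
  obtain ⟨N3, h3⟩ := g3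
  obtain ⟨N4, h4⟩ := g4
  refine ⟨max (max N1 N2) (max N3 N4), fun n hn => ⟨h1 n ?_, h2 n ?_, h3 n ?_, h4 n ?_⟩⟩
  · exact (le_max_left _ _).trans ((le_max_left _ _).trans hn)
  · exact (le_max_right _ _).trans ((le_max_left _ _).trans hn)
  · exact (le_max_left _ _).trans ((le_max_right _ _).trans hn)
  · exact (le_max_right _ _).trans ((le_max_right _ _).trans hn)

/-- The product of all entries. -/
def Pi4 (h : G) : ℝ := (h 0 0 * h 1 0) * (h 0 1 * h 1 1)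

/-- Crossing axes cross coarsely. -/
theorem IsSurfaceGroup.cr_of_cross (hΓ : IsSurfaceGroup Γ) {γ δ : Γ} {X : G} {l : ℝ}
    (hl : 0 < l) (hax : (γ : G) * X = X * geo l ∨ (γ : G) * X = -(X * geo l))
    (hcross : Pi4 (X⁻¹ * δ * X) < 0) : Cr γ (δ * γ * δ⁻¹) := by
  intro E hE
  obtain ⟨BE, hBE, hEb⟩ := finite_entry_bound (hE.image (Subtype.val : Γ → G))
  obtain ⟨B, hB, hmem⟩ := hΓ.mem_zspan hl hax (16 * BE ^ 4)
  obtain ⟨N, hN⟩ := F_growth hl hax (δ : G) 0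
  refine ⟨B, hB, N, fun n hn => ?_⟩
  rintro ⟨m, p, hp0, hpm, hstep, havoid⟩
  obtain ⟨g1, g2, g3, g4⟩ := hN n hn
  have hp0' : ((p 0 : Γ) : G) = ((δ : G) * γ * (δ : G)⁻¹) ^ n := by rw [hp0]; push_cast; rfl
  have hpm' : ((p m : Γ) : G) = (((δ : G) * γ * (δ : G)⁻¹)⁻¹) ^ n := by
    rw [hpm]; push_cast; rfl
  rw [← hp0'] at g1 g2
  rw [← hpm'] at g3 g4
  have stepb : ∀ i < m, ∃ e : G, (∀ a b, |e a b| ≤ BE) ∧
      X⁻¹ * (p (i + 1) : G) = X⁻¹ * (p i : G) * e := by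
    intro i hi
    refine ⟨((p i)⁻¹ * p (i + 1) : Γ), hEb _ ⟨_, hstep i hi, rfl⟩, ?_⟩
    push_cast
    group
  have hcase : (0 < F (X⁻¹ * (p 0 : G)) ∧ F (X⁻¹ * (p m : G)) < 0) ∨
      (F (X⁻¹ * (p 0 : G)) < 0 ∧ 0 < F (X⁻¹ * (p m : G))) := by
    unfold Pi4 at hcross
    rcases mul_neg_iff.mp hcross with ⟨h1, h2⟩ | ⟨h1, h2⟩
    · left
      exact ⟨g1 h1, by simpa using g4 h2⟩
    · right
      exact ⟨by simpa using g2 h1, g3 h2⟩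
  rcases hcase with ⟨h1, h2⟩ | ⟨h1, h2⟩
  · obtain ⟨i, hi, hi1, hi2⟩ := sign_change (f := fun i => F (X⁻¹ * (p i : G))) h1 h2
    obtain ⟨e, he, hstepe⟩ := stepb i hi
    rw [hstepe] at hi2
    have := F_jump hBE he hi1 hi2
    apply havoid i hi.le
    apply hmem
    rw [abs_of_nonneg hi1]
    exact this
  · obtain ⟨i, hi, hi1, hi2⟩ := sign_change (f := fun i => -F (X⁻¹ * (p i : G)))
      (by simpa using h1) (by simpa using h2)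
    obtain ⟨e, he, hstepe⟩ := stepb i hi
    simp only [Left.nonneg_neg_iff, Left.neg_nonpos_iff] at hi1 hi2
    have e1 : X⁻¹ * (p (i + 1) : G) * e⁻¹ = X⁻¹ * (p i : G) := by
      rw [hstepe]; group
    have := F_jump (M := X⁻¹ * (p (i + 1) : G)) (e := e⁻¹) hBE (inv_bdd he) hi2
      (by rw [e1]; exact hi1)
    apply havoid (i + 1) hi
    apply hmem
    rw [abs_of_nonneg hi2]
    exact this

end Pool.Agent.SimpleAnosov
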